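import Pool.Agent.MP_6cbfb8_an.Defs

/-!
Half-space factors by modulation: the analysis on the side of the modulation variable.
-/

set_option autoImplicit false

namespace Pool.Agent.HSL

open MeasureTheory Set Metric Pool.Agent.MP_6cbfb8_an
open scoped ENNReal Real RealInnerProductSpace

/-- Weighted Jensen inequality. -/
theorem wj {α : Type*} [MeasurableSpace α] (μ : Measure α) {p : ℝ} (hp : 1 < p)
    {k B : α → ℝ≥0∞} (hk : AEMeasurable k μ) (hB : AEMeasurable B μ) :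
    (∫⁻ x, k x * B x ∂μ) ^ p ≤ (∫⁻ x, k x ∂μ) ^ (p - 1) * ∫⁻ x, k x * B x ^ p ∂μ := by
  have hp0 : 0 < p := by linarith
  have hq : (p / (p - 1)).HolderConjugate p := by
    refine (Real.HolderConjugate.conjExponent hp).symm
  have h1 : ∀ x, k x * B x = k x ^ (1 / (p / (p - 1))) * (k x ^ (1 / p) * B x) := by
    intro x
    rw [← mul_assoc, ← ENNReal.rpow_add_of_nonneg _ _ (by
      have : 0 < p - 1 := by linarith
      positivity) (by positivity)]
    have : 1 / (p / (p - 1)) + 1 / p = 1 := by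
      have := hq.inv_add_inv_eq_one
      simpa [one_div] using this
    rw [this, ENNReal.rpow_one]
  calc (∫⁻ x, k x * B x ∂μ) ^ p = (∫⁻ x, k x ^ (1 / (p / (p - 1))) * (k x ^ (1 / p) * B x) ∂μ) ^ p := by
        simp only [← h1]
    _ ≤ ((∫⁻ x, (k x ^ (1 / (p / (p - 1)))) ^ (p / (p - 1)) ∂μ) ^ (1 / (p / (p - 1))) *
          (∫⁻ x, (k x ^ (1 / p) * B x) ^ p ∂μ) ^ (1 / p)) ^ p := by
        refine ENNReal.rpow_le_rpow ?_ hp0.le
        exact ENNReal.lintegral_mul_le_Lp_mul_Lq μ hq (hk.pow_const _)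
          ((hk.pow_const _).mul hB)
    _ = (∫⁻ x, k x ∂μ) ^ (p - 1) * ∫⁻ x, k x * B x ^ p ∂μ := by
        have e1 : ∀ x, (k x ^ (1 / (p / (p - 1)))) ^ (p / (p - 1)) = k x := by
          intro x
          rw [← ENNReal.rpow_mul, one_div, inv_mul_cancel₀, ENNReal.rpow_one]
          have : 0 < p - 1 := by linarith
          positivity
        have e2 : ∀ x, (k x ^ (1 / p) * B x) ^ p = k x * B x ^ p := by
          intro x
          rw [ENNReal.mul_rpow_of_nonneg _ _ hp0.le, ← ENNReal.rpow_mul, one_div,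
            inv_mul_cancel₀ hp0.ne', ENNReal.rpow_one]
        simp only [e1, e2]
        rw [ENNReal.mul_rpow_of_nonneg _ _ hp0.le, ← ENNReal.rpow_mul, ← ENNReal.rpow_mul]
        have e3 : 1 / (p / (p - 1)) * p = p - 1 := by
          have : 0 < p - 1 := by linarith
          field_simp
        have e4 : 1 / p * p = 1 := by field_simp
        rw [e3, e4, ENNReal.rpow_one]

/-- The geometry of the translations: if `ξ - h • l` is small compared to `√(|ξ| + |h| |l|)`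
then `|h| |l|` and `|ξ|` are comparable. -/
theorem geo_near {n : ℕ} {l ξ : E n} {h R : ℝ} (hR : 1 ≤ R) (hξ : R ≤ ‖ξ‖)
    (hn : ‖ξ - h • l‖ < √(‖ξ‖ + |h| * ‖l‖) / 8) :
    ‖ξ‖ ≤ 2 * (|h| * ‖l‖) ∧ |h| * ‖l‖ ≤ 2 * ‖ξ‖ := by
  have h0 : ‖h • l‖ = |h| * ‖l‖ := by rw [norm_smul, Real.norm_eq_abs]
  have h1 : 0 ≤ |h| * ‖l‖ := by positivity
  have h2 : √(‖ξ‖ + |h| * ‖l‖) ≤ ‖ξ‖ + |h| * ‖l‖ := by
    rw [Real.sqrt_le_left (by positivity)]
    have : 1 ≤ ‖ξ‖ + |h| * ‖l‖ := by linarith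
    nlinarith
  have h3 : ‖ξ‖ ≤ ‖ξ - h • l‖ + |h| * ‖l‖ := by
    have := norm_add_le (ξ - h • l) (h • l)
    rwa [sub_add_cancel, h0] at this
  have h4 : |h| * ‖l‖ ≤ ‖ξ‖ + ‖ξ - h • l‖ := by
    have := norm_sub_le ξ (ξ - h • l)
    rwa [sub_sub_cancel, h0] at this
  constructor <;> linarith

end Pool.Agent.HSL
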