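import Pool.Agent.HSL.A

/-!
Half-space factors by modulation: the estimate of the superposition of the translates.
-/

set_option autoImplicit false

namespace Pool.Agent.HSL

open MeasureTheory Set Metric Pool.Agent.MP_6cbfb8_an
open scoped ENNReal Real RealInnerProductSpace

theorem K_fin {ε : ℝ} (hε : 0 < ε) :
    ∃ K : ℝ, 0 ≤ K ∧ ∫⁻ h : ℝ, ENNReal.ofReal ((1 + |h|) ^ (-(1 + ε))) = ENNReal.ofReal K := by
  have h1 : Integrable (fun h : ℝ => (1 + ‖h‖) ^ (-(1 + ε))) volume := by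
    refine integrable_one_add_norm ?_
    rw [Module.finrank_self]
    push_cast
    linarith
  have h2 : ∫⁻ h : ℝ, ENNReal.ofReal ((1 + |h|) ^ (-(1 + ε))) ≠ ⊤ := by
    have := h1.lintegral_lt_top
    simp only [Real.norm_eq_abs] at this
    exact this.ne
  exact ⟨_, ENNReal.toReal_nonneg, (ENNReal.ofReal_toReal h2).symm⟩

theorem J_vol {n : ℕ} {l : E n} (hl : 0 < ‖l‖) (ξ : E n) (ρ : ℝ) :
    volume {h : ℝ | ‖ξ - h • l‖ < ρ} ≤ ENNReal.ofReal (4 * ρ / ‖l‖) := by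
  rcases Set.eq_empty_or_nonempty {h : ℝ | ‖ξ - h • l‖ < ρ} with he | ⟨a, ha⟩
  · rw [he, measure_empty]
    exact zero_le
  have ha' : ‖ξ - a • l‖ < ρ := ha
  have hsub : {h : ℝ | ‖ξ - h • l‖ < ρ} ⊆ closedBall a (2 * ρ / ‖l‖) := by
    intro h hh
    have hh' : ‖ξ - h • l‖ < ρ := hh
    rw [mem_closedBall, dist_eq_norm, le_div_iff₀ hl]
    have h1 : ‖h - a‖ * ‖l‖ = ‖(ξ - a • l) - (ξ - h • l)‖ := by
      rw [← norm_smul]
      congr 1
      rw [sub_smul]
      abel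
    rw [h1]
    have := norm_sub_le (ξ - a • l) (ξ - h • l)
    linarith
  refine (measure_mono hsub).trans ?_
  rw [Real.volume_closedBall]
  refine ENNReal.ofReal_le_ofReal (le_of_eq ?_)
  ring

/-- The weight inequality. -/
theorem wt_le {L R h : ℝ} (hL : 0 < L) (hR : 1 ≤ R) : 1 + |h| ≤ (1 + 1 / L) * (R + |h| * L) := by
  have h1 : 0 ≤ |h| := abs_nonneg h
  have h2 : (1 + 1 / L) * (R + |h| * L) = R + |h| * L + R / L + |h| := by
    field_simp
    ring
  rw [h2]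
  have h3 : 0 ≤ |h| * L := by positivity
  have h4 : 0 ≤ R / L := by positivity
  linarith

/-- The superposition of the translates. -/
theorem super (n : ℕ) {L : ℝ} (hl : 0 < L) {p η0 C0 : ℝ} (hp : 1 < p) (hη : 0 < η0)
    (hC0 : 0 ≤ C0) : ∃ C' : ℝ, 0 ≤ C' ∧ ∀ l : E n, ‖l‖ = L → ∀ (A : ℝ → E n → ℝ≥0∞),
      Measurable (fun q : ℝ × E n => A q.1 q.2) →
      (∀ (h ρ : ℝ), 0 < ρ → ∫⁻ ζ in {ζ : E n | ρ ≤ ‖ζ‖}, A h ζ ^ p ≤
        ENNReal.ofReal (C0 * ρ ^ (-η0))) → (∀ h : ℝ, ∫⁻ ζ, A h ζ ^ p ≤ ENNReal.ofReal C0) →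
      ∀ R : ℝ, 1 ≤ R → ∫⁻ ξ in {ξ : E n | R ≤ ‖ξ‖},
        (∫⁻ h : ℝ, ENNReal.ofReal ((1 + |h|)⁻¹) * A h (ξ - h • l)) ^ p ≤
        ENNReal.ofReal (C' * R ^ (-(min η0 (p - 1) / 4))) := by
  have hp0 : 0 < p := by linarith
  have hp1 : 0 < p - 1 := by linarith
  set e1 : ℝ := η0 / (4 * p) with he1
  have he10 : 0 < e1 := by positivity
  set e2 : ℝ := (p - 1) / 4 with he2
  have he20 : 0 < e2 := by positivity
  obtain ⟨K1, hK1, hK1e⟩ := K_fin he10
  obtain ⟨K2, hK2, hK2e⟩ := K_fin he20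
  set cL : ℝ := 1 + 1 / L with hcL
  have hcL1 : 1 ≤ cL := by
    have : 0 ≤ 1 / L := by positivity
    linarith
  set D1 : ℝ := K1 ^ (p - 1) * (K1 * (C0 * (8 ^ η0 * cL ^ (η0 / 4)))) with hD1
  set D2 : ℝ := 3 ^ (p - 1) * (cL ^ e2 * C0 * K2) with hD2
  have hD10 : 0 ≤ D1 := by positivity
  have hD20 : 0 ≤ D2 := by positivity
  refine ⟨2 ^ (p - 1) * (D1 + D2), by positivity, ?_⟩
  intro l hLd A hA hT hW R hR
  have hl' : 0 < ‖l‖ := by rw [hLd]; exact hl
  have hR0 : 0 < R := by linarith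
  set T : Set (E n) := {ξ : E n | R ≤ ‖ξ‖} with hTd
  have hTm : MeasurableSet T := (isClosed_le continuous_const continuous_norm).measurableSet
  -- the two regions
  set P : Set (ℝ × E n) := {q | √(‖q.2‖ + |q.1| * L) / 8 ≤ ‖q.2 - q.1 • l‖} with hP
  have hPm : MeasurableSet P := by
    refine (isClosed_le ?_ ?_).measurableSet
    · fun_prop
    · fun_prop
  have hAt : Measurable fun q : ℝ × E n => A q.1 (q.2 - q.1 • l) := by
    have h1 : Measurable fun q : ℝ × E n => ((q.1, q.2 - q.1 • l) : ℝ × E n) := by fun_prop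
    exact hA.comp h1
  set A1 : ℝ × E n → ℝ≥0∞ := P.indicator fun q => A q.1 (q.2 - q.1 • l) with hA1
  set A2 : ℝ × E n → ℝ≥0∞ := Pᶜ.indicator fun q => A q.1 (q.2 - q.1 • l) with hA2
  have hA1m : Measurable A1 := hAt.indicator hPm
  have hA2m : Measurable A2 := hAt.indicator hPm.compl
  have hsum : ∀ h ξ, A h (ξ - h • l) = A1 (h, ξ) + A2 (h, ξ) := by
    intro h ξ
    have := congrFun (Set.indicator_self_add_compl P fun q : ℝ × E n => A q.1 (q.2 - q.1 • l))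
      (h, ξ)
    exact this.symm
  have hkm : Measurable fun h : ℝ => ENNReal.ofReal ((1 + |h|)⁻¹) := by fun_prop
  -- part 1
  have part1 : ∫⁻ ξ in T, (∫⁻ h : ℝ, ENNReal.ofReal ((1 + |h|)⁻¹) * A1 (h, ξ)) ^ p ≤
      ENNReal.ofReal (D1 * R ^ (-(η0 / 4))) := by
    have hk1m : Measurable fun h : ℝ => ENNReal.ofReal ((1 + |h|) ^ (-(1 + e1))) := by fun_prop
    have hw1m : Measurable fun h : ℝ => ENNReal.ofReal ((1 + |h|) ^ (η0 / 4)) := by fun_prop
    have hb1m : Measurable fun h : ℝ => ENNReal.ofReal ((1 + |h|) ^ e1) := by fun_prop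
    have a1 : ∀ ξ, (∫⁻ h : ℝ, ENNReal.ofReal ((1 + |h|)⁻¹) * A1 (h, ξ)) ^ p ≤
        ENNReal.ofReal (K1 ^ (p - 1)) * ∫⁻ h : ℝ, ENNReal.ofReal ((1 + |h|) ^ (-(1 + e1))) *
          (ENNReal.ofReal ((1 + |h|) ^ (η0 / 4)) * A1 (h, ξ) ^ p) := by
      intro ξ
      have b1 : ∀ h : ℝ, ENNReal.ofReal ((1 + |h|)⁻¹) * A1 (h, ξ) =
          ENNReal.ofReal ((1 + |h|) ^ (-(1 + e1))) * (ENNReal.ofReal ((1 + |h|) ^ e1) * A1 (h, ξ)) := by
        intro h
        have : 0 < 1 + |h| := by positivity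
        rw [← mul_assoc, ← ENNReal.ofReal_mul (by positivity), ← Real.rpow_add this]
        congr 2
        rw [show -(1 + e1) + e1 = -1 by ring, Real.rpow_neg_one]
      have b2 : ∀ h : ℝ, (ENNReal.ofReal ((1 + |h|) ^ e1) * A1 (h, ξ)) ^ p =
          ENNReal.ofReal ((1 + |h|) ^ (η0 / 4)) * A1 (h, ξ) ^ p := by
        intro h
        have : 0 < 1 + |h| := by positivity
        rw [ENNReal.mul_rpow_of_nonneg _ _ hp0.le, ENNReal.ofReal_rpow_of_nonneg (by positivity)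
          hp0.le, ← Real.rpow_mul this.le]
        congr 3
        rw [he1]
        field_simp
      rw [lintegral_congr b1]
      refine (wj volume hp (k := fun h : ℝ => ENNReal.ofReal ((1 + |h|) ^ (-(1 + e1))))
        (B := fun h : ℝ => ENNReal.ofReal ((1 + |h|) ^ e1) * A1 (h, ξ)) hk1m.aemeasurable
        (hb1m.mul (hA1m.comp measurable_prodMk_right)).aemeasurable).trans (le_of_eq ?_)
      simp only [b2]
      rw [hK1e, ENNReal.ofReal_rpow_of_nonneg hK1 hp1.le]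
    have a2 : ∀ h : ℝ, ∫⁻ ξ in T, A1 (h, ξ) ^ p ≤
        ENNReal.ofReal (C0 * (8 ^ η0 * (R + |h| * L) ^ (-(η0 / 2)))) := by
      intro h
      have hRh : 0 < R + |h| * L := by positivity
      have hρ : 0 < √(R + |h| * L) / 8 := by positivity
      have c1 : ∀ ξ ∈ T, A1 (h, ξ) ^ p ≤
          ({ζ : E n | √(R + |h| * L) / 8 ≤ ‖ζ‖}.indicator fun ζ => A h ζ ^ p) (ξ - h • l) := by
        intro ξ hξ
        have hξ' : R ≤ ‖ξ‖ := hξ
        by_cases hP' : (h, ξ) ∈ P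
        · have h3 : √(‖ξ‖ + |h| * L) / 8 ≤ ‖ξ - h • l‖ := hP'
          have h4 : √(R + |h| * L) ≤ √(‖ξ‖ + |h| * L) := Real.sqrt_le_sqrt (by linarith)
          rw [Set.indicator_of_mem (show (ξ - h • l) ∈ {ζ : E n | √(R + |h| * L) / 8 ≤ ‖ζ‖} by
            show √(R + |h| * L) / 8 ≤ ‖ξ - h • l‖
            linarith)]
          rw [hA1, Set.indicator_of_mem hP']
        · rw [hA1, Set.indicator_of_notMem hP', ENNReal.zero_rpow_of_pos hp0]
          exact zero_le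
      calc ∫⁻ ξ in T, A1 (h, ξ) ^ p ≤ ∫⁻ ξ in T,
            ({ζ : E n | √(R + |h| * L) / 8 ≤ ‖ζ‖}.indicator fun ζ => A h ζ ^ p) (ξ - h • l) :=
            setLIntegral_mono' hTm c1
        _ ≤ ∫⁻ ξ,
            ({ζ : E n | √(R + |h| * L) / 8 ≤ ‖ζ‖}.indicator fun ζ => A h ζ ^ p) (ξ - h • l) :=
            setLIntegral_le_lintegral _ _
        _ = ∫⁻ ζ, ({ζ : E n | √(R + |h| * L) / 8 ≤ ‖ζ‖}.indicator fun ζ => A h ζ ^ p) ζ :=
            lintegral_sub_right_eq_self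
              ({ζ : E n | √(R + |h| * L) / 8 ≤ ‖ζ‖}.indicator fun ζ => A h ζ ^ p) (h • l)
        _ = ∫⁻ ζ in {ζ : E n | √(R + |h| * L) / 8 ≤ ‖ζ‖}, A h ζ ^ p :=
            lintegral_indicator (isClosed_le continuous_const continuous_norm).measurableSet _
        _ ≤ ENNReal.ofReal (C0 * (√(R + |h| * L) / 8) ^ (-η0)) := hT h _ hρ
        _ = _ := by
            congr 2
            rw [Real.div_rpow (by positivity) (by norm_num), Real.rpow_neg (by norm_num : (0:ℝ) ≤ 8),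
              div_inv_eq_mul, Real.sqrt_eq_rpow, ← Real.rpow_mul hRh.le, mul_comm]
            congr 2
            ring
    have a3 : ∀ h : ℝ, ENNReal.ofReal ((1 + |h|) ^ (η0 / 4)) * ∫⁻ ξ in T, A1 (h, ξ) ^ p ≤
        ENNReal.ofReal (C0 * (8 ^ η0 * cL ^ (η0 / 4)) * R ^ (-(η0 / 4))) := by
      intro h
      have hRh : 0 < R + |h| * L := by positivity
      have h0 : 0 < 1 + |h| := by positivity
      refine (mul_le_mul_right (a2 h) _).trans ?_
      rw [← ENNReal.ofReal_mul (by positivity)]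
      refine ENNReal.ofReal_le_ofReal ?_
      have d1 : (1 + |h|) ^ (η0 / 4) ≤ cL ^ (η0 / 4) * (R + |h| * L) ^ (η0 / 4) := by
        rw [← Real.mul_rpow (by positivity) hRh.le]
        exact Real.rpow_le_rpow h0.le (wt_le hl hR) (by positivity)
      have d2 : (R + |h| * L) ^ (η0 / 4) * (R + |h| * L) ^ (-(η0 / 2)) ≤ R ^ (-(η0 / 4)) := by
        rw [← Real.rpow_add hRh, show η0 / 4 + -(η0 / 2) = -(η0 / 4) by ring]
        exact Real.rpow_le_rpow_of_nonpos hR0 (by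
          have : 0 ≤ |h| * L := by positivity
          linarith) (by linarith)
      calc (1 + |h|) ^ (η0 / 4) * (C0 * (8 ^ η0 * (R + |h| * L) ^ (-(η0 / 2)))) ≤
          (cL ^ (η0 / 4) * (R + |h| * L) ^ (η0 / 4)) *
            (C0 * (8 ^ η0 * (R + |h| * L) ^ (-(η0 / 2)))) := by gcongr
        _ = C0 * (8 ^ η0 * cL ^ (η0 / 4)) * ((R + |h| * L) ^ (η0 / 4) *
            (R + |h| * L) ^ (-(η0 / 2))) := by ring
        _ ≤ _ := by gcongr
    have hjm : Measurable fun q : E n × ℝ => ENNReal.ofReal ((1 + |q.2|) ^ (-(1 + e1))) *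
          (ENNReal.ofReal ((1 + |q.2|) ^ (η0 / 4)) * A1 (q.2, q.1) ^ p) :=
      (hk1m.comp measurable_snd).mul ((hw1m.comp measurable_snd).mul
        ((hA1m.comp measurable_swap).pow_const _))
    calc ∫⁻ ξ in T, (∫⁻ h : ℝ, ENNReal.ofReal ((1 + |h|)⁻¹) * A1 (h, ξ)) ^ p ≤
        ∫⁻ ξ in T, ENNReal.ofReal (K1 ^ (p - 1)) * ∫⁻ h : ℝ,
          ENNReal.ofReal ((1 + |h|) ^ (-(1 + e1))) *
            (ENNReal.ofReal ((1 + |h|) ^ (η0 / 4)) * A1 (h, ξ) ^ p) := lintegral_mono a1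
      _ = ENNReal.ofReal (K1 ^ (p - 1)) * ∫⁻ ξ in T, ∫⁻ h : ℝ,
          ENNReal.ofReal ((1 + |h|) ^ (-(1 + e1))) *
            (ENNReal.ofReal ((1 + |h|) ^ (η0 / 4)) * A1 (h, ξ) ^ p) := by
          rw [lintegral_const_mul' _ _ ENNReal.ofReal_ne_top]
      _ = ENNReal.ofReal (K1 ^ (p - 1)) * ∫⁻ h : ℝ, ∫⁻ ξ in T,
          ENNReal.ofReal ((1 + |h|) ^ (-(1 + e1))) *
            (ENNReal.ofReal ((1 + |h|) ^ (η0 / 4)) * A1 (h, ξ) ^ p) := by
          rw [lintegral_lintegral_swap (f := fun ξ h => ENNReal.ofReal ((1 + |h|) ^ (-(1 + e1))) *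
            (ENNReal.ofReal ((1 + |h|) ^ (η0 / 4)) * A1 (h, ξ) ^ p)) hjm.aemeasurable]
      _ ≤ ENNReal.ofReal (K1 ^ (p - 1)) * ∫⁻ h : ℝ, ENNReal.ofReal ((1 + |h|) ^ (-(1 + e1))) *
          ENNReal.ofReal (C0 * (8 ^ η0 * cL ^ (η0 / 4)) * R ^ (-(η0 / 4))) := by
          gcongr with h
          rw [lintegral_const_mul' _ _ ENNReal.ofReal_ne_top,
            lintegral_const_mul' _ _ ENNReal.ofReal_ne_top]
          gcongr
          exact a3 h
      _ = ENNReal.ofReal (D1 * R ^ (-(η0 / 4))) := by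
          rw [lintegral_mul_const' _ _ ENNReal.ofReal_ne_top, hK1e,
            ← ENNReal.ofReal_mul (by positivity), ← ENNReal.ofReal_mul (by positivity)]
          congr 1
          rw [hD1]
          ring
  have part2 : ∫⁻ ξ in T, (∫⁻ h : ℝ, ENNReal.ofReal ((1 + |h|)⁻¹) * A2 (h, ξ)) ^ p ≤
      ENNReal.ofReal (D2 * R ^ (-((p - 1) / 4))) := by
    have hw2m : Measurable fun h : ℝ =>
        ENNReal.ofReal (3 ^ (p - 1) * (R + |h| * L) ^ (-(2 * e2)) * (1 + |h|)⁻¹) := by fun_prop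
    have a1 : ∀ ξ ∈ T, (∫⁻ h : ℝ, ENNReal.ofReal ((1 + |h|)⁻¹) * A2 (h, ξ)) ^ p ≤
        ∫⁻ h : ℝ, ENNReal.ofReal (3 ^ (p - 1) * (R + |h| * L) ^ (-(2 * e2)) * (1 + |h|)⁻¹) *
          A2 (h, ξ) ^ p := by
      intro ξ hξ
      have hξ' : R ≤ ‖ξ‖ := hξ
      have hξ0 : 0 < ‖ξ‖ := by linarith
      set N : Set ℝ := {h : ℝ | (h, ξ) ∈ Pᶜ} with hN
      have hNm : MeasurableSet N := measurable_prodMk_right hPm.compl
      have hNn : ∀ h ∈ N, ‖ξ‖ ≤ 2 * (|h| * L) ∧ |h| * L ≤ 2 * ‖ξ‖ ∧ ‖ξ - h • l‖ < √(3 * ‖ξ‖) / 8 := by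
        intro h hh
        have h3 : ¬ (√(‖ξ‖ + |h| * L) / 8 ≤ ‖ξ - h • l‖) := hh
        rw [not_le] at h3
        obtain ⟨h4, h5⟩ := geo_near hR hξ' (by rw [hLd]; exact h3)
        rw [hLd] at h4 h5
        refine ⟨h4, h5, lt_of_lt_of_le h3 ?_⟩
        have : √(‖ξ‖ + |h| * L) ≤ √(3 * ‖ξ‖) := Real.sqrt_le_sqrt (by linarith)
        linarith
      have hkN : ∫⁻ h, N.indicator (fun h => ENNReal.ofReal ((1 + |h|)⁻¹)) h ≤
          ENNReal.ofReal (3 / √(3 * ‖ξ‖)) := by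
        rw [lintegral_indicator hNm]
        calc ∫⁻ h in N, ENNReal.ofReal ((1 + |h|)⁻¹) ≤ ∫⁻ h in N, ENNReal.ofReal (2 * L / ‖ξ‖) := by
              refine setLIntegral_mono' hNm fun h hh => ENNReal.ofReal_le_ofReal ?_
              obtain ⟨h4, -, -⟩ := hNn h hh
              have h5 : 0 < 1 + |h| := by positivity
              rw [inv_eq_one_div, div_le_div_iff₀ h5 hξ0]
              nlinarith [abs_nonneg h]
          _ = ENNReal.ofReal (2 * L / ‖ξ‖) * volume N := by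
              rw [lintegral_const, Measure.restrict_apply_univ]
          _ ≤ ENNReal.ofReal (2 * L / ‖ξ‖) * ENNReal.ofReal (4 * (√(3 * ‖ξ‖) / 8) / L) := by
              gcongr
              rw [← hLd]
              refine le_trans (measure_mono ?_) (J_vol hl' ξ (√(3 * ‖ξ‖) / 8))
              intro h hh
              exact (hNn h hh).2.2
          _ = ENNReal.ofReal (3 / √(3 * ‖ξ‖)) := by
              rw [← ENNReal.ofReal_mul (by positivity)]
              congr 1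
              have h6 : √(3 * ‖ξ‖) * √(3 * ‖ξ‖) = 3 * ‖ξ‖ := Real.mul_self_sqrt (by positivity)
              have h7 : 0 < √(3 * ‖ξ‖) := by positivity
              rw [eq_div_iff h7.ne']
              have h8 : 2 * L / ‖ξ‖ * (4 * (√(3 * ‖ξ‖) / 8) / L) * √(3 * ‖ξ‖) =
                  (√(3 * ‖ξ‖) * √(3 * ‖ξ‖)) / ‖ξ‖ := by
                field_simp
                norm_num
              rw [h8, h6]
              field_simp
      have e0 : ∀ h, ENNReal.ofReal ((1 + |h|)⁻¹) * A2 (h, ξ) =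
          N.indicator (fun h => ENNReal.ofReal ((1 + |h|)⁻¹)) h * A2 (h, ξ) := by
        intro h
        by_cases hh : h ∈ N
        · rw [Set.indicator_of_mem hh]
        · have : A2 (h, ξ) = 0 := by
            rw [hA2]
            exact Set.indicator_of_notMem (show (h, ξ) ∉ Pᶜ from hh) _
          rw [this, mul_zero, mul_zero]
      simp only [e0]
      have hkNm : Measurable (N.indicator fun h : ℝ => ENNReal.ofReal ((1 + |h|)⁻¹)) :=
        hkm.indicator hNm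
      refine (wj volume hp hkNm.aemeasurable
        (hA2m.comp measurable_prodMk_right).aemeasurable).trans ?_
      have hfin : (∫⁻ h, N.indicator (fun h => ENNReal.ofReal ((1 + |h|)⁻¹)) h) ^ (p - 1) ≠ ⊤ :=
        ENNReal.rpow_ne_top_of_nonneg hp1.le (ne_top_of_le_ne_top ENNReal.ofReal_ne_top hkN)
      rw [← lintegral_const_mul' _ _ hfin]
      refine lintegral_mono fun h => ?_
      by_cases hh : h ∈ N
      · obtain ⟨h4, h5, -⟩ := hNn h hh
        have hRh : 0 < R + |h| * L := by positivity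
        show _ * (N.indicator (fun h => ENNReal.ofReal ((1 + |h|)⁻¹)) h * A2 (h, ξ) ^ p) ≤ _
        rw [Set.indicator_of_mem hh, ← mul_assoc]
        gcongr ?_ * _
        rw [ENNReal.ofReal_mul (by positivity)]
        gcongr ?_ * _
        have h6 : 3 / √(3 * ‖ξ‖) ≤ 3 * (R + |h| * L) ^ (-(1 / 2 : ℝ)) := by
          rw [Real.rpow_neg hRh.le, ← Real.sqrt_eq_rpow, div_eq_mul_inv]
          have h7 : √(R + |h| * L) ≤ √(3 * ‖ξ‖) := Real.sqrt_le_sqrt (by linarith)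
          have h8 : 0 < √(R + |h| * L) := by positivity
          gcongr
        calc (∫⁻ h, N.indicator (fun h => ENNReal.ofReal ((1 + |h|)⁻¹)) h) ^ (p - 1) ≤
            (ENNReal.ofReal (3 * (R + |h| * L) ^ (-(1 / 2 : ℝ)))) ^ (p - 1) :=
              ENNReal.rpow_le_rpow (hkN.trans (ENNReal.ofReal_le_ofReal h6)) hp1.le
          _ = ENNReal.ofReal (3 ^ (p - 1) * (R + |h| * L) ^ (-(2 * e2))) := by
              rw [ENNReal.ofReal_rpow_of_nonneg (by positivity) hp1.le,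
                Real.mul_rpow (by norm_num) (by positivity), ← Real.rpow_mul hRh.le]
              congr 3
              rw [he2]
              ring
      · have : A2 (h, ξ) = 0 := by
          rw [hA2]
          exact Set.indicator_of_notMem (show (h, ξ) ∉ Pᶜ from hh) _
        show _ * (N.indicator (fun h => ENNReal.ofReal ((1 + |h|)⁻¹)) h * A2 (h, ξ) ^ p) ≤ _
        rw [this, ENNReal.zero_rpow_of_pos hp0, mul_zero, mul_zero]
        exact zero_le
    have a2 : ∀ h : ℝ, ∫⁻ ξ in T, A2 (h, ξ) ^ p ≤ ENNReal.ofReal C0 := by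
      intro h
      calc ∫⁻ ξ in T, A2 (h, ξ) ^ p ≤ ∫⁻ ξ, A2 (h, ξ) ^ p := setLIntegral_le_lintegral _ _
        _ ≤ ∫⁻ ξ, A h (ξ - h • l) ^ p := by
            refine lintegral_mono fun ξ => ?_
            refine ENNReal.rpow_le_rpow ?_ hp0.le
            rw [hA2]
            exact Set.indicator_le_self _ _ _
        _ = ∫⁻ ζ, A h ζ ^ p := lintegral_sub_right_eq_self (fun ζ => A h ζ ^ p) (h • l)
        _ ≤ _ := hW h
    have hjm : Measurable fun q : E n × ℝ =>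
        ENNReal.ofReal (3 ^ (p - 1) * (R + |q.2| * L) ^ (-(2 * e2)) * (1 + |q.2|)⁻¹) *
          A2 (q.2, q.1) ^ p :=
      (hw2m.comp measurable_snd).mul ((hA2m.comp measurable_swap).pow_const _)
    calc ∫⁻ ξ in T, (∫⁻ h : ℝ, ENNReal.ofReal ((1 + |h|)⁻¹) * A2 (h, ξ)) ^ p ≤
        ∫⁻ ξ in T, ∫⁻ h : ℝ,
          ENNReal.ofReal (3 ^ (p - 1) * (R + |h| * L) ^ (-(2 * e2)) * (1 + |h|)⁻¹) *
            A2 (h, ξ) ^ p := setLIntegral_mono' hTm a1
      _ = ∫⁻ h : ℝ, ∫⁻ ξ in T,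
          ENNReal.ofReal (3 ^ (p - 1) * (R + |h| * L) ^ (-(2 * e2)) * (1 + |h|)⁻¹) *
            A2 (h, ξ) ^ p := by
          rw [lintegral_lintegral_swap (f := fun ξ h =>
            ENNReal.ofReal (3 ^ (p - 1) * (R + |h| * L) ^ (-(2 * e2)) * (1 + |h|)⁻¹) *
            A2 (h, ξ) ^ p) hjm.aemeasurable]
      _ ≤ ∫⁻ h : ℝ, ENNReal.ofReal (3 ^ (p - 1) * (cL ^ e2 * C0) * R ^ (-e2)) *
            ENNReal.ofReal ((1 + |h|) ^ (-(1 + e2))) := by
          gcongr with h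
          rw [lintegral_const_mul' _ _ ENNReal.ofReal_ne_top]
          refine (mul_le_mul_right (a2 h) _).trans ?_
          rw [← ENNReal.ofReal_mul (by positivity), ← ENNReal.ofReal_mul (by positivity)]
          refine ENNReal.ofReal_le_ofReal ?_
          have hRh : 0 < R + |h| * L := by positivity
          have h0 : 0 < 1 + |h| := by positivity
          have d1 : (R + |h| * L) ^ (-e2) ≤ R ^ (-e2) :=
            Real.rpow_le_rpow_of_nonpos hR0 (by
              have : 0 ≤ |h| * L := by positivity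
              linarith) (by linarith)
          have d2 : (R + |h| * L) ^ (-e2) ≤ cL ^ e2 * (1 + |h|) ^ (-e2) := by
            have d3 : (1 + |h|) ^ e2 ≤ cL ^ e2 * (R + |h| * L) ^ e2 := by
              rw [← Real.mul_rpow (by positivity) hRh.le]
              exact Real.rpow_le_rpow h0.le (wt_le hl hR) (by positivity)
            rw [Real.rpow_neg hRh.le, Real.rpow_neg h0.le, ← div_eq_mul_inv,
              le_div_iff₀ (by positivity), inv_mul_le_iff₀ (by positivity), mul_comm]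
            exact d3
          have d4 : (R + |h| * L) ^ (-(2 * e2)) = (R + |h| * L) ^ (-e2) * (R + |h| * L) ^ (-e2) := by
            rw [← Real.rpow_add hRh]
            congr 1
            ring
          have d5 : (1 + |h|) ^ (-(1 + e2)) = (1 + |h|) ^ (-e2) * (1 + |h|)⁻¹ := by
            rw [← Real.rpow_neg_one (1 + |h|), ← Real.rpow_add h0]
            congr 1
            ring
          rw [d4, d5]
          calc 3 ^ (p - 1) * ((R + |h| * L) ^ (-e2) * (R + |h| * L) ^ (-e2)) * (1 + |h|)⁻¹ * C0 ≤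
              3 ^ (p - 1) * (R ^ (-e2) * (cL ^ e2 * (1 + |h|) ^ (-e2))) * (1 + |h|)⁻¹ * C0 := by
                gcongr
            _ = _ := by ring
      _ = ENNReal.ofReal (D2 * R ^ (-((p - 1) / 4))) := by
          rw [lintegral_const_mul' _ _ ENNReal.ofReal_ne_top, hK2e,
            ← ENNReal.ofReal_mul (by positivity)]
          congr 1
          rw [hD2, he2]
          ring
  have hmono : ∀ s, min η0 (p - 1) / 4 ≤ s → R ^ (-s) ≤ R ^ (-(min η0 (p - 1) / 4)) := fun s hs =>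
    Real.rpow_le_rpow_of_exponent_le hR (by linarith)
  have h1 : R ^ (-(η0 / 4)) ≤ R ^ (-(min η0 (p - 1) / 4)) := hmono _ (by
    have := min_le_left η0 (p - 1); linarith)
  have h2 : R ^ (-((p - 1) / 4)) ≤ R ^ (-(min η0 (p - 1) / 4)) := hmono _ (by
    have := min_le_right η0 (p - 1); linarith)
  calc ∫⁻ ξ in T, (∫⁻ h : ℝ, ENNReal.ofReal ((1 + |h|)⁻¹) * A h (ξ - h • l)) ^ p ≤
      ∫⁻ ξ in T, (ENNReal.ofReal (2 ^ (p - 1)) *
        ((∫⁻ h : ℝ, ENNReal.ofReal ((1 + |h|)⁻¹) * A1 (h, ξ)) ^ p +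
        (∫⁻ h : ℝ, ENNReal.ofReal ((1 + |h|)⁻¹) * A2 (h, ξ)) ^ p)) := by
        refine lintegral_mono fun ξ => ?_
        have hs : ∫⁻ h : ℝ, ENNReal.ofReal ((1 + |h|)⁻¹) * A h (ξ - h • l) =
            (∫⁻ h : ℝ, ENNReal.ofReal ((1 + |h|)⁻¹) * A1 (h, ξ)) +
            ∫⁻ h : ℝ, ENNReal.ofReal ((1 + |h|)⁻¹) * A2 (h, ξ) := by
          have hm : Measurable fun h : ℝ => ENNReal.ofReal ((1 + |h|)⁻¹) * A1 (h, ξ) :=
            hkm.mul (hA1m.comp measurable_prodMk_right)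
          rw [← lintegral_add_left hm]
          refine lintegral_congr fun h => ?_
          rw [hsum, mul_add]
        show (∫⁻ h : ℝ, ENNReal.ofReal ((1 + |h|)⁻¹) * A h (ξ - h • l)) ^ p ≤ _
        rw [hs]
        have := ENNReal.rpow_add_le_mul_rpow_add_rpow
          (∫⁻ h : ℝ, ENNReal.ofReal ((1 + |h|)⁻¹) * A1 (h, ξ))
          (∫⁻ h : ℝ, ENNReal.ofReal ((1 + |h|)⁻¹) * A2 (h, ξ)) hp.le
        refine this.trans (le_of_eq ?_)
        rw [← ENNReal.ofReal_rpow_of_pos (by norm_num), ENNReal.ofReal_ofNat]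
    _ = ENNReal.ofReal (2 ^ (p - 1)) *
        ((∫⁻ ξ in T, (∫⁻ h : ℝ, ENNReal.ofReal ((1 + |h|)⁻¹) * A1 (h, ξ)) ^ p) +
        ∫⁻ ξ in T, (∫⁻ h : ℝ, ENNReal.ofReal ((1 + |h|)⁻¹) * A2 (h, ξ)) ^ p) := by
        rw [lintegral_const_mul' _ _ ENNReal.ofReal_ne_top, lintegral_add_left]
        have : Measurable fun ξ : E n => ∫⁻ h : ℝ, ENNReal.ofReal ((1 + |h|)⁻¹) * A1 (h, ξ) := by
          have h3 : Measurable fun q : E n × ℝ => ENNReal.ofReal ((1 + |q.2|)⁻¹) * A1 (q.2, q.1) :=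
            (hkm.comp measurable_snd).mul (hA1m.comp measurable_swap)
          exact h3.lintegral_prod_right'
        exact this.pow_const _
    _ ≤ ENNReal.ofReal (2 ^ (p - 1)) * (ENNReal.ofReal (D1 * R ^ (-(η0 / 4))) +
          ENNReal.ofReal (D2 * R ^ (-((p - 1) / 4)))) := by gcongr
    _ ≤ _ := by
        rw [← ENNReal.ofReal_add (by positivity) (by positivity),
          ← ENNReal.ofReal_mul (by positivity)]
        refine ENNReal.ofReal_le_ofReal ?_
        rw [mul_assoc (2 ^ (p - 1)), add_mul]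
        gcongr

end Pool.Agent.HSL
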