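import Pool.Agent.HSL.B

/-!
Half-space factors by modulation: the smooth steps and their Fourier transforms.
-/

set_option autoImplicit false

namespace Pool.Agent.HSL

open MeasureTheory Set Metric Filter Topology Pool.Agent.MP_6cbfb8_an
open scoped ENNReal Real RealInnerProductSpace ContDiff FourierTransform

/-- A smooth step at `0` of width `δ`, cut off at `4`. -/
noncomputable def ust (δ s : ℝ) : ℝ :=
  Real.smoothTransition (s / δ) * Real.smoothTransition (4 - s)

/-- The complex valued version. -/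
noncomputable def us (δ s : ℝ) : ℂ := (ust δ s : ℂ)

theorem ust_nonneg (δ s : ℝ) : 0 ≤ ust δ s :=
  mul_nonneg (Real.smoothTransition.nonneg _) (Real.smoothTransition.nonneg _)

theorem ust_le_one (δ s : ℝ) : ust δ s ≤ 1 :=
  mul_le_one₀ (Real.smoothTransition.le_one _) (Real.smoothTransition.nonneg _)
    (Real.smoothTransition.le_one _)

theorem us_norm (δ s : ℝ) : ‖us δ s‖ ≤ 1 := by
  rw [us, Complex.norm_real, Real.norm_eq_abs, abs_of_nonneg (ust_nonneg δ s)]
  exact ust_le_one δ s

theorem ust_zero {δ s : ℝ} (hδ : 0 < δ) (hs : s ∉ Icc (0 : ℝ) 4) : ust δ s = 0 := by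
  rw [mem_Icc, not_and_or, not_le, not_le] at hs
  rcases hs with h | h
  · rw [ust, Real.smoothTransition.zero_of_nonpos (div_nonpos_of_nonpos_of_nonneg h.le hδ.le),
      zero_mul]
  · rw [ust, Real.smoothTransition.zero_of_nonpos (by linarith : 4 - s ≤ 0), mul_zero]

theorem ust_contDiff (δ : ℝ) : ContDiff ℝ ∞ (ust δ) := by
  unfold ust
  refine ContDiff.mul ?_ ?_
  · exact Real.smoothTransition.contDiff.comp (contDiff_id.div_const δ)
  · exact Real.smoothTransition.contDiff.comp (contDiff_const.sub contDiff_id)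

theorem us_contDiff (δ : ℝ) : ContDiff ℝ ∞ (us δ) :=
  Complex.ofRealCLM.contDiff.comp (ust_contDiff δ)

theorem us_cs {δ : ℝ} (hδ : 0 < δ) : HasCompactSupport (us δ) := by
  refine HasCompactSupport.intro (isCompact_Icc (a := (0 : ℝ)) (b := 4)) fun s hs => ?_
  rw [us, ust_zero hδ hs, Complex.ofReal_zero]

theorem us_int {δ : ℝ} (hδ : 0 < δ) : Integrable (us δ) :=
  (us_contDiff δ).continuous.integrable_of_hasCompactSupport (us_cs hδ)

theorem us_hat_int {δ : ℝ} (hδ : 0 < δ) : Integrable (𝓕 (us δ)) := by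
  have h := (𝓕 ((us_cs hδ).toSchwartzMap (us_contDiff δ))).integrable (μ := volume)
  exact h

theorem us_inv {δ : ℝ} (hδ : 0 < δ) (s : ℝ) :
    us δ s = ∫ h : ℝ, 𝓕 (us δ) h * Complex.exp (((2 * π * (h * s) : ℝ) : ℂ) * Complex.I) := by
  have h1 := congrFun ((us_contDiff δ).continuous.fourierInv_fourier_eq (us_int hδ)
    (us_hat_int hδ)) s
  rw [← h1, Real.fourierInv_eq']
  refine integral_congr_ae (ae_of_all _ fun h => ?_)
  simp only [smul_eq_mul]
  rw [mul_comm]
  congr 3
  simp [mul_comm]

/-- The derivative of the smooth transition. -/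
theorem dst_int : Integrable (deriv Real.smoothTransition) := by
  have h1 : ContDiff ℝ ∞ Real.smoothTransition := Real.smoothTransition.contDiff
  refine (h1.continuous_deriv (by norm_num)).integrable_of_hasCompactSupport ?_
  refine HasCompactSupport.intro (isCompact_Icc (a := (0 : ℝ)) (b := 1)) fun s hs => ?_
  rw [mem_Icc, not_and_or, not_le, not_le] at hs
  rcases hs with h | h
  · have : Real.smoothTransition =ᶠ[𝓝 s] fun _ => 0 := by
      filter_upwards [Iio_mem_nhds h] with x hx
      exact Real.smoothTransition.zero_of_nonpos (le_of_lt hx)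
    rw [this.deriv_eq, deriv_const]
  · have : Real.smoothTransition =ᶠ[𝓝 s] fun _ => 1 := by
      filter_upwards [Ioi_mem_nhds h] with x hx
      exact Real.smoothTransition.one_of_one_le (le_of_lt hx)
    rw [this.deriv_eq, deriv_const]

theorem us_deriv {δ : ℝ} (hδ : 0 < δ) (s : ℝ) :
    ‖deriv (us δ) s‖ ≤ |deriv Real.smoothTransition (s / δ)| / δ +
      |deriv Real.smoothTransition (4 - s)| := by
  have hd : ∀ x, HasDerivAt Real.smoothTransition (deriv Real.smoothTransition x) x := fun x =>
    ((Real.smoothTransition.contDiff (n := 1)).differentiable (by norm_num) x).hasDerivAt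
  have h1 : HasDerivAt (fun s => Real.smoothTransition (s / δ))
      (deriv Real.smoothTransition (s / δ) * (1 / δ)) s := by
    have h3 : HasDerivAt (fun s : ℝ => s / δ) (1 / δ) s := (hasDerivAt_id s).div_const δ
    exact (hd (s / δ)).comp s h3
  have h2 : HasDerivAt (fun s => Real.smoothTransition (4 - s))
      (deriv Real.smoothTransition (4 - s) * (-1)) s := by
    have h3 : HasDerivAt (fun s : ℝ => 4 - s) (-1) s := by
      simpa using (hasDerivAt_id s).const_sub 4
    exact (hd (4 - s)).comp s h3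
  have h3 : HasDerivAt (ust δ) _ s := h1.mul h2
  have h4 : HasDerivAt (us δ) _ s := h3.ofReal_comp
  rw [h4.deriv, Complex.norm_real, Real.norm_eq_abs]
  refine (abs_add_le _ _).trans ?_
  have ha : ∀ x, |Real.smoothTransition x| ≤ 1 := fun x => by
    rw [abs_of_nonneg (Real.smoothTransition.nonneg x)]
    exact Real.smoothTransition.le_one x
  gcongr ?_ + ?_
  · rw [abs_mul, abs_mul, abs_of_pos (show (0 : ℝ) < 1 / δ by positivity), ← div_eq_mul_one_div]
    exact mul_le_of_le_one_right (by positivity) (ha _)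
  · rw [abs_mul, abs_mul, abs_neg, abs_one, mul_one]
    exact mul_le_of_le_one_left (by positivity) (ha _)

theorem us_hat : ∃ C1 : ℝ, 0 ≤ C1 ∧ ∀ δ : ℝ, 0 < δ → ∀ h : ℝ,
    ‖𝓕 (us δ) h‖ ≤ C1 * (1 + |h|)⁻¹ := by
  set K : ℝ := ∫ s, |deriv Real.smoothTransition s| with hK
  have hK0 : 0 ≤ K := integral_nonneg fun s => abs_nonneg _
  refine ⟨4 + 2 * K, by positivity, fun δ hδ h => ?_⟩
  have hL1 : ∀ g : ℝ → ℂ, ‖𝓕 g h‖ ≤ ∫ s, ‖g s‖ := by
    intro g
    rw [Real.fourier_real_eq_integral_exp_smul]
    refine (norm_integral_le_integral_norm _).trans (le_of_eq ?_)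
    congr 1
    funext s
    rw [norm_smul, Complex.norm_exp_ofReal_mul_I, one_mul]
  have e1 : ‖𝓕 (us δ) h‖ ≤ 4 := by
    refine (hL1 _).trans ?_
    have h1 : ∀ s, ‖us δ s‖ ≤ (Icc (0 : ℝ) 4).indicator (fun _ => (1 : ℝ)) s := by
      intro s
      by_cases hs : s ∈ Icc (0 : ℝ) 4
      · rw [indicator_of_mem hs]
        exact us_norm δ s
      · rw [indicator_of_notMem hs, us, ust_zero hδ hs, Complex.ofReal_zero, norm_zero]
    have hi : Integrable ((Icc (0 : ℝ) 4).indicator (fun _ => (1 : ℝ))) := by
      rw [integrable_indicator_iff measurableSet_Icc]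
      exact integrableOn_const (by simp)
    refine (integral_mono (us_int hδ).norm hi h1).trans (le_of_eq ?_)
    rw [integral_indicator measurableSet_Icc]
    simp
  have e2 : 2 * π * |h| * ‖𝓕 (us δ) h‖ ≤ 2 * K := by
    have hdi : Integrable (deriv (us δ)) :=
      ((us_contDiff δ).continuous_deriv (by norm_num)).integrable_of_hasCompactSupport
        (us_cs hδ).deriv
    have h1 := congrFun (Real.fourier_deriv (us_int hδ)
      ((us_contDiff δ).differentiable (by norm_num)) hdi) h
    have h2 : ‖𝓕 (deriv (us δ)) h‖ = 2 * π * |h| * ‖𝓕 (us δ) h‖ := by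
      rw [h1, norm_smul]
      congr 1
      rw [norm_mul, norm_mul, norm_mul, Complex.norm_I, Complex.norm_real, Complex.norm_real,
        Real.norm_eq_abs, Real.norm_eq_abs, abs_of_pos Real.pi_pos]
      norm_num
    rw [← h2]
    refine (hL1 _).trans ?_
    have i1 : Integrable fun s => |deriv Real.smoothTransition (s / δ)| / δ :=
      ((dst_int.abs).comp_div hδ.ne').div_const δ
    have i2 : Integrable fun s => |deriv Real.smoothTransition (4 - s)| :=
      (dst_int.abs).comp_sub_left 4
    refine (integral_mono hdi.norm (i1.add i2) (us_deriv hδ)).trans (le_of_eq ?_)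
    simp only [Pi.add_apply]
    rw [integral_add i1 i2, integral_div,
      Measure.integral_comp_div (fun s => |deriv Real.smoothTransition s|) δ,
      integral_sub_left_eq_self (fun s => |deriv Real.smoothTransition s|), smul_eq_mul,
      abs_of_pos hδ, ← hK]
    field_simp
    norm_num
  have h0 : 0 < 1 + |h| := by positivity
  rw [← div_eq_mul_inv, le_div_iff₀ h0]
  have hpi : 3 < π := Real.pi_gt_three
  have h3 : |h| * ‖𝓕 (us δ) h‖ ≤ 2 * K := by
    refine le_trans ?_ e2
    have : 0 ≤ |h| * ‖𝓕 (us δ) h‖ := by positivity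
    nlinarith
  linarith

/-- Pointwise convergence of the steps. -/
theorem us_tendsto {s : ℝ} (hs : s ≤ 3) :
    Tendsto (fun k : ℕ => us (1 / ((k : ℝ) + 1)) s) atTop (𝓝 (if 0 < s then 1 else 0)) := by
  split_ifs with h
  · refine tendsto_const_nhds.congr' ?_
    have h1 : ∀ᶠ k : ℕ in atTop, 1 / ((k : ℝ) + 1) < s :=
      tendsto_one_div_add_atTop_nhds_zero_nat.eventually_lt_const h
    filter_upwards [h1] with k hk
    have h2 : 0 < 1 / ((k : ℝ) + 1) := by positivity
    rw [us, ust, Real.smoothTransition.one_of_one_le ((one_le_div h2).2 hk.le),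
      Real.smoothTransition.one_of_one_le (by linarith : 1 ≤ 4 - s)]
    norm_num
  · refine tendsto_const_nhds.congr fun k => ?_
    have h2 : 0 < 1 / ((k : ℝ) + 1) := by positivity
    rw [us, ust, Real.smoothTransition.zero_of_nonpos
      (div_nonpos_of_nonpos_of_nonneg (not_lt.1 h) h2.le)]
    norm_num

end Pool.Agent.HSL
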