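import Pool.Agent.HSL.C

/-!
Half-space factors by modulation: the representation by translates.
-/

set_option autoImplicit false

namespace Pool.Agent.HSL

open MeasureTheory Set Metric Filter Topology Pool.Agent.MP_6cbfb8_an
open scoped ENNReal Real RealInnerProductSpace ContDiff FourierTransform

/-- The character. -/
noncomputable def ex (s : ℝ) : ℂ := Complex.exp (((2 * π * s : ℝ) : ℂ) * Complex.I)

theorem ex_norm (s : ℝ) : ‖ex s‖ = 1 := Complex.norm_exp_ofReal_mul_I _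

theorem ex_add (s t : ℝ) : ex (s + t) = ex s * ex t := by
  rw [ex, ex, ex, ← Complex.exp_add]
  congr 1
  push_cast
  ring

theorem ex_cont : Continuous ex := by
  unfold ex
  fun_prop

theorem extn_ex {n : ℕ} (g : E n → ℂ) (ξ : E n) :
    extn g ξ = ∫ x : S n, g x * ex (-inner ℝ (x : E n) ξ) ∂(sm n) := by
  unfold extn ex
  refine integral_congr_ae (ae_of_all _ fun x => ?_)
  simp only
  congr 4
  ring

/-- The modulated function. -/
noncomputable def md {n : ℕ} (f : E n → ℂ) (v : E n → ℝ) (h : ℝ) (x : E n) : ℂ :=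
  f x * ex (-(h * v x))

theorem extn_joint {n : ℕ} {f : E n → ℂ} {v : E n → ℝ} (hf : Measurable f) (hv : Measurable v) :
    StronglyMeasurable fun q : ℝ × E n => extn (md f v q.1) q.2 := by
  have h1 : StronglyMeasurable fun r : (ℝ × E n) × S n =>
      md f v r.1.1 r.2 * ex (-inner ℝ (r.2 : E n) r.1.2) := by
    apply Measurable.stronglyMeasurable
    unfold md
    have hc := ex_cont.measurable
    have m1 : Measurable fun r : (ℝ × E n) × S n => ((r.2 : S n) : E n) := by fun_prop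
    refine ((hf.comp m1).mul (hc.comp ?_)).mul (hc.comp ?_)
    · exact ((measurable_fst.comp measurable_fst).mul (hv.comp m1)).neg
    · exact (Measurable.inner m1 (measurable_snd.comp measurable_fst)).neg
  have h2 := h1.integral_prod_right' (ν := sm n)
  have h3 : (fun q : ℝ × E n => extn (md f v q.1) q.2) = fun q => ∫ x : S n,
      md f v q.1 x * ex (-inner ℝ (x : E n) q.2) ∂(sm n) := funext fun q => extn_ex _ _
  rw [h3]
  exact h2

theorem extn_meas {n : ℕ} {f : E n → ℂ} (hf : Measurable f) : Measurable (extn f) := by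
  have h1 := (extn_joint hf (measurable_const (a := (0 : ℝ)))).measurable
  have h2 : Measurable fun ξ : E n => ((0 : ℝ), ξ) := measurable_prodMk_left
  have h3 := h1.comp h2
  have h4 : (extn f) = (fun q : ℝ × E n => extn (md f (fun _ => (0 : ℝ)) q.1) q.2) ∘
      fun ξ => ((0 : ℝ), ξ) := by
    funext ξ
    simp only [Function.comp]
    congr 1
    funext x
    simp [md, ex]
  rw [h4]
  exact h3

/-- The representation by translates. -/
theorem rep {n : ℕ} {f : E n → ℂ} {v : E n → ℝ} (hf : Measurable f) (hb : ∀ x, ‖f x‖ ≤ 1)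
    (hv : Measurable v) (l : E n) {δ : ℝ} (hδ : 0 < δ) (ξ : E n) :
    extn (fun x => f x * us δ (inner ℝ l x - v x)) ξ =
      ∫ h : ℝ, 𝓕 (us δ) h * extn (md f v h) (ξ - h • l) := by
  have hcs := ex_cont.measurable
  have key : ∀ (x : E n) (h : ℝ), f x * (𝓕 (us δ) h * ex (h * (inner ℝ l x - v x))) *
      ex (-inner ℝ x ξ) = 𝓕 (us δ) h * (md f v h x * ex (-inner ℝ x (ξ - h • l))) := by
    intro x h
    have e1 : h * (inner ℝ l x - v x) = h * inner ℝ l x + -(h * v x) := by ring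
    have e2 : -inner ℝ x (ξ - h • l) = -inner ℝ x ξ + h * inner ℝ l x := by
      rw [inner_sub_right, inner_smul_right, real_inner_comm x l]
      ring
    rw [md, e1, e2, ex_add, ex_add]
    ring
  have h1 : extn (fun x => f x * us δ (inner ℝ l x - v x)) ξ =
      ∫ x : S n, ∫ h : ℝ, f x * (𝓕 (us δ) h * ex (h * (inner ℝ l (x : E n) - v x))) *
        ex (-inner ℝ (x : E n) ξ) ∂(volume : Measure ℝ) ∂(sm n) := by
    rw [extn_ex]
    refine integral_congr_ae (ae_of_all _ fun x => ?_)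
    simp only
    rw [integral_mul_const, integral_const_mul]
    congr 2
    exact us_inv hδ _
  rw [h1, integral_integral_swap]
  · refine integral_congr_ae (ae_of_all _ fun h => ?_)
    simp only
    rw [extn_ex, ← integral_const_mul]
    refine integral_congr_ae (ae_of_all _ fun x => ?_)
    exact key x h
  · have hi : Integrable (fun r : S n × ℝ => (1 : ℂ) * 𝓕 (us δ) r.2) ((sm n).prod volume) :=
      (integrable_const (1 : ℂ)).mul_prod (us_hat_int hδ)
    refine hi.mono ?_ (ae_of_all _ fun r => ?_)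
    · apply Measurable.aestronglyMeasurable
      have m1 : Measurable fun r : S n × ℝ => ((r.1 : S n) : E n) := by fun_prop
      have m2 : Measurable (𝓕 (us δ)) :=
        ((𝓕 ((us_cs hδ).toSchwartzMap (us_contDiff δ))).continuous).measurable
      refine ((hf.comp m1).mul ((m2.comp measurable_snd).mul (hcs.comp ?_))).mul (hcs.comp ?_)
      · exact measurable_snd.mul ((Measurable.inner measurable_const m1).sub (hv.comp m1))
      · exact (Measurable.inner m1 measurable_const).neg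
    · simp only [Function.uncurry]
      rw [norm_mul, norm_mul, norm_mul, ex_norm, ex_norm, mul_one, mul_one, one_mul]
      exact mul_le_of_le_one_left (norm_nonneg _) (hb _)

theorem extn_enorm_le {n : ℕ} (g : E n → ℂ) (hb : ∀ x, ‖x‖ = 1 → ‖g x‖ ≤ 1) (ξ : E n) :
    ‖extn g ξ‖ₑ ≤ sm n univ := by
  rw [extn_ex]
  refine (enorm_integral_le_lintegral_enorm _).trans ?_
  calc ∫⁻ x : S n, ‖g x * ex (-inner ℝ (x : E n) ξ)‖ₑ ∂(sm n) ≤ ∫⁻ x : S n, 1 ∂(sm n) := by
        refine lintegral_mono fun x => ?_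
        rw [← ofReal_norm, norm_mul, ex_norm, mul_one, ← ENNReal.ofReal_one]
        exact ENNReal.ofReal_le_ofReal (hb _ (by simp))
    _ = sm n univ := by simp

theorem tail_all (n : ℕ) {p η C : ℝ} (hp : 0 < p) (hη : 0 < η) (hC : 0 ≤ C) :
    ∃ C0 : ℝ, 0 ≤ C0 ∧ ∀ g : E n → ℂ, (∀ x, ‖g x‖ ≤ 1) →
      (∀ R : ℝ, 1 ≤ R → ∫⁻ ξ in {ξ : E n | R ≤ ‖ξ‖}, ‖extn g ξ‖ₑ ^ p ≤
        ENNReal.ofReal (C * R ^ (-η))) →
      (∀ ρ : ℝ, 0 < ρ → ∫⁻ ξ in {ξ : E n | ρ ≤ ‖ξ‖}, ‖extn g ξ‖ₑ ^ p ≤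
        ENNReal.ofReal (C0 * ρ ^ (-η))) ∧ ∫⁻ ξ, ‖extn g ξ‖ₑ ^ p ≤ ENNReal.ofReal C0 := by
  set M : ℝ≥0∞ := (sm n univ) ^ p * volume (ball (0 : E n) 1) with hM
  have hMt : M ≠ ⊤ := ENNReal.mul_ne_top
    (ENNReal.rpow_ne_top_of_nonneg hp.le (measure_ne_top _ _)) measure_ball_lt_top.ne
  refine ⟨M.toReal + C, by positivity, fun g hb hR => ?_⟩
  have hW : ∫⁻ ξ, ‖extn g ξ‖ₑ ^ p ≤ ENNReal.ofReal (M.toReal + C) := by
    rw [← lintegral_add_compl _ (measurableSet_ball (x := (0 : E n)) (ε := 1)),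
      ENNReal.ofReal_add ENNReal.toReal_nonneg hC, ENNReal.ofReal_toReal hMt]
    refine add_le_add ?_ ?_
    · calc ∫⁻ ξ in ball (0 : E n) 1, ‖extn g ξ‖ₑ ^ p ≤
          ∫⁻ ξ in ball (0 : E n) 1, (sm n univ) ^ p :=
            lintegral_mono fun ξ => ENNReal.rpow_le_rpow (extn_enorm_le g (fun x _ => hb x) ξ) hp.le
        _ = M := by rw [lintegral_const, Measure.restrict_apply_univ]
    · have h1 := hR 1 le_rfl
      rw [Real.one_rpow, mul_one] at h1
      refine le_trans (lintegral_mono_set fun ξ hξ => ?_) h1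
      simpa using hξ
  refine ⟨fun ρ hρ => ?_, hW⟩
  rcases le_total 1 ρ with h1 | h1
  · refine (hR ρ h1).trans (ENNReal.ofReal_le_ofReal ?_)
    gcongr
    exact le_add_of_nonneg_left ENNReal.toReal_nonneg
  · refine (setLIntegral_le_lintegral _ _).trans (hW.trans (ENNReal.ofReal_le_ofReal ?_))
    refine le_mul_of_one_le_right (by positivity) ?_
    exact Real.one_le_rpow_of_pos_of_le_one_of_nonpos hρ h1 (by linarith)

/-- **The half-space lemma.** -/
theorem halfspace (n : ℕ) {p η C : ℝ} (hp : 1 < p) (hη : 0 < η) :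
    ∃ C' η' : ℝ, 0 < η' ∧ ∀ {T : Type*} [MeasurableSpace T] (Φ : E n → T)
      (Cl : (E n → ℂ) → Prop), Measurable Φ → (∀ f, Cl f → Measurable f) →
      (∀ f, Cl f → ∀ x, ‖f x‖ ≤ 1) →
      (∀ f, Cl f → ∀ F : T → ℂ, Measurable F → (∀ t, ‖F t‖ = 1) → Cl (fun x => f x * F (Φ x))) →
      (∀ f, Cl f → ∀ R : ℝ, 1 ≤ R → ∫⁻ ξ in {ξ : E n | R ≤ ‖ξ‖}, ‖extn f ξ‖ₑ ^ p ≤
        ENNReal.ofReal (C * R ^ (-η))) →
      ∀ f, Cl f → ∀ l : E n, ‖l‖ = 1 → ∀ w : T → ℝ, Measurable w → ∀ R : ℝ, 1 ≤ R →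
        ∫⁻ ξ in {ξ : E n | R ≤ ‖ξ‖},
          ‖extn (fun x => if w (Φ x) < inner ℝ l x then f x else 0) ξ‖ₑ ^ p ≤
            ENNReal.ofReal (C' * R ^ (-η')) := by
  have hp0 : 0 < p := by linarith
  obtain ⟨C0, hC0, hall⟩ := tail_all n hp0 hη (le_max_right C 0)
  obtain ⟨C2, hC2, hsup⟩ := super n (L := 1) one_pos hp hη hC0
  obtain ⟨C1, hC1, hhat⟩ := us_hat
  refine ⟨C1 ^ p * C2, min η (p - 1) / 4, by
    have : 0 < min η (p - 1) := lt_min hη (by linarith)
    positivity, ?_⟩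
  intro T _ Φ Cl hΦ hm hb hs hT f hf l hl w hw R hR
  set v : E n → ℝ := fun x => max (w (Φ x)) (-2) with hv
  have hvm : Measurable v := (hw.comp hΦ).max measurable_const
  have hfm := hm f hf
  have hfb := hb f hf
  -- the translates
  have hA : ∀ h : ℝ, Cl (md f v h) := by
    intro h
    refine hs f hf (fun t => ex (-(h * max (w t) (-2)))) ?_ fun t => ex_norm _
    exact ex_cont.measurable.comp ((hw.max measurable_const).const_mul h).neg
  have hA' : ∀ h, (∀ ρ : ℝ, 0 < ρ → ∫⁻ ξ in {ξ : E n | ρ ≤ ‖ξ‖}, ‖extn (md f v h) ξ‖ₑ ^ p ≤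
        ENNReal.ofReal (C0 * ρ ^ (-η))) ∧ ∫⁻ ξ, ‖extn (md f v h) ξ‖ₑ ^ p ≤ ENNReal.ofReal C0 := by
    intro h
    refine hall _ (hb _ (hA h)) fun R hR => (hT _ (hA h) R hR).trans (ENNReal.ofReal_le_ofReal ?_)
    gcongr
    exact le_max_left _ _
  have hS := hsup l hl (fun h ζ => ‖extn (md f v h) ζ‖ₑ) (extn_joint hfm hvm).enorm
    (fun h ρ hρ => (hA' h).1 ρ hρ) (fun h => (hA' h).2) R hR
  -- the approximants
  set g : ℕ → E n → ℂ := fun k x => f x * us (1 / ((k : ℝ) + 1)) (inner ℝ l x - v x) with hg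
  have hgm : ∀ k, Measurable (g k) := by
    intro k
    refine hfm.mul ((us_contDiff _).continuous.measurable.comp ?_)
    exact (Measurable.inner measurable_const measurable_id).sub hvm
  have hgk : ∀ k, ∫⁻ ξ in {ξ : E n | R ≤ ‖ξ‖}, ‖extn (g k) ξ‖ₑ ^ p ≤
      ENNReal.ofReal (C1 ^ p * C2 * R ^ (-(min η (p - 1) / 4))) := by
    intro k
    have hδ : 0 < 1 / ((k : ℝ) + 1) := by positivity
    have h1 : ∀ ξ, ‖extn (g k) ξ‖ₑ ≤ ENNReal.ofReal C1 *
        ∫⁻ h : ℝ, ENNReal.ofReal ((1 + |h|)⁻¹) * ‖extn (md f v h) (ξ - h • l)‖ₑ := by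
      intro ξ
      rw [hg, rep hfm hfb hvm l hδ ξ, ← lintegral_const_mul' _ _ ENNReal.ofReal_ne_top]
      refine (enorm_integral_le_lintegral_enorm _).trans (lintegral_mono fun h => ?_)
      rw [enorm_mul, ← mul_assoc]
      gcongr
      rw [← ENNReal.ofReal_mul hC1, ← ofReal_norm]
      exact ENNReal.ofReal_le_ofReal (hhat _ hδ h)
    calc ∫⁻ ξ in {ξ : E n | R ≤ ‖ξ‖}, ‖extn (g k) ξ‖ₑ ^ p ≤
        ∫⁻ ξ in {ξ : E n | R ≤ ‖ξ‖}, ENNReal.ofReal (C1 ^ p) *
          (∫⁻ h : ℝ, ENNReal.ofReal ((1 + |h|)⁻¹) * ‖extn (md f v h) (ξ - h • l)‖ₑ) ^ p := by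
          refine lintegral_mono fun ξ => ?_
          refine (ENNReal.rpow_le_rpow (h1 ξ) hp0.le).trans (le_of_eq ?_)
          rw [ENNReal.mul_rpow_of_nonneg _ _ hp0.le, ENNReal.ofReal_rpow_of_nonneg hC1 hp0.le]
      _ ≤ ENNReal.ofReal (C1 ^ p) * ENNReal.ofReal (C2 * R ^ (-(min η (p - 1) / 4))) := by
          rw [lintegral_const_mul' _ _ ENNReal.ofReal_ne_top]
          gcongr
      _ = _ := by
          rw [← ENNReal.ofReal_mul (by positivity), mul_assoc]
  -- the limit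
  have hlim : ∀ ξ, Tendsto (fun k => ‖extn (g k) ξ‖ₑ ^ p) atTop
      (𝓝 (‖extn (fun x => if w (Φ x) < inner ℝ l x then f x else 0) ξ‖ₑ ^ p)) := by
    intro ξ
    refine ((ENNReal.continuous_rpow_const).tendsto _).comp ?_
    refine (continuous_enorm.tendsto _).comp ?_
    simp only [extn_ex]
    refine tendsto_integral_of_dominated_convergence (fun _ => (1 : ℝ)) ?_ (integrable_const _)
      ?_ ?_
    · intro k
      apply Measurable.aestronglyMeasurable
      refine ((hgm k).comp measurable_subtype_coe).mul (ex_cont.measurable.comp ?_)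
      exact (Measurable.inner measurable_subtype_coe measurable_const).neg
    · intro k
      refine ae_of_all _ fun x => ?_
      rw [norm_mul, ex_norm, mul_one, hg]
      simp only
      rw [norm_mul]
      exact mul_le_one₀ (hfb _) (norm_nonneg _) (us_norm _ _)
    · refine ae_of_all _ fun x => ?_
      refine Tendsto.mul ?_ tendsto_const_nhds
      have hx1 : ‖(x : E n)‖ = 1 := by simp
      have hlx : |inner ℝ l (x : E n)| ≤ 1 := by
        have := abs_real_inner_le_norm l (x : E n)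
        rwa [hl, hx1, mul_one] at this
      have hle : inner ℝ l (x : E n) - v x ≤ 3 := by
        have h1 := le_max_right (w (Φ x)) (-2)
        have h2 := (abs_le.1 hlx).2
        show inner ℝ l (x : E n) - max (w (Φ x)) (-2) ≤ 3
        linarith
      have h1 := (us_tendsto hle).const_mul (f x)
      have h2 : f x * (if 0 < inner ℝ l (x : E n) - v x then 1 else 0) =
          if w (Φ x) < inner ℝ l (x : E n) then f x else 0 := by
        have h3 : (0 < inner ℝ l (x : E n) - v x) ↔ w (Φ x) < inner ℝ l (x : E n) := by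
          rw [sub_pos]
          show max (w (Φ x)) (-2) < _ ↔ _
          rw [max_lt_iff]
          exact and_iff_left (by linarith [(abs_le.1 hlx).1])
        simp only [h3]
        split_ifs <;> simp
      rw [h2] at h1
      exact h1
  calc ∫⁻ ξ in {ξ : E n | R ≤ ‖ξ‖},
        ‖extn (fun x => if w (Φ x) < inner ℝ l x then f x else 0) ξ‖ₑ ^ p =
      ∫⁻ ξ in {ξ : E n | R ≤ ‖ξ‖}, liminf (fun k => ‖extn (g k) ξ‖ₑ ^ p) atTop :=
        lintegral_congr fun ξ => ((hlim ξ).liminf_eq).symm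
    _ ≤ liminf (fun k => ∫⁻ ξ in {ξ : E n | R ≤ ‖ξ‖}, ‖extn (g k) ξ‖ₑ ^ p) atTop :=
        lintegral_liminf_le fun k => (extn_meas (hgm k)).enorm.pow_const p
    _ ≤ _ := by
        refine liminf_le_of_le (by isBoundedDefault) fun b hb => ?_
        obtain ⟨k, hk⟩ := hb.exists
        exact hk.trans (hgk k)

end Pool.Agent.HSL
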