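import Pool.Agent.HSL.D

/-!
Half-space factors by modulation: finitely many half-spaces.
-/

set_option autoImplicit false

namespace Pool.Agent.HSL

open MeasureTheory Set Metric Filter Topology Pool.Agent.MP_6cbfb8_an
open scoped ENNReal Real RealInnerProductSpace

/-- **Finitely many half-spaces.** -/
theorem halfspaces (n J : ℕ) {p η C : ℝ} (hp : 1 < p) (hη : 0 < η) :
    ∃ C' η' : ℝ, 0 < η' ∧ ∀ {T : Type*} [MeasurableSpace T] (Φ : E n → T)
      (Cl : (E n → ℂ) → Prop), Measurable Φ → (∀ f, Cl f → Measurable f) →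
      (∀ f, Cl f → ∀ x, ‖f x‖ ≤ 1) →
      (∀ f, Cl f → ∀ F : T → ℂ, Measurable F → (∀ t, ‖F t‖ = 1) → Cl (fun x => f x * F (Φ x))) →
      (∀ f, Cl f → ∀ R : ℝ, 1 ≤ R → ∫⁻ ξ in {ξ : E n | R ≤ ‖ξ‖}, ‖extn f ξ‖ₑ ^ p ≤
        ENNReal.ofReal (C * R ^ (-η))) →
      ∀ f, Cl f → ∀ l : Fin J → E n, (∀ j, ‖l j‖ = 1) → ∀ w : Fin J → T → ℝ,
        (∀ j, Measurable (w j)) → ∀ R : ℝ, 1 ≤ R →
        ∫⁻ ξ in {ξ : E n | R ≤ ‖ξ‖},
          ‖extn ({x | ∀ j, w j (Φ x) < inner ℝ (l j) x}.indicator f) ξ‖ₑ ^ p ≤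
            ENNReal.ofReal (C' * R ^ (-η')) := by
  induction J with
  | zero =>
    refine ⟨C, η, hη, fun {T} _ Φ Cl hΦ hm hb hs hT f hf l hl w hw R hR => ?_⟩
    have : ({x : E n | ∀ j : Fin 0, w j (Φ x) < inner ℝ (l j) x}.indicator f) = f := by
      have h1 : {x : E n | ∀ j : Fin 0, w j (Φ x) < inner ℝ (l j) x} = univ :=
        eq_univ_of_forall fun x j => j.elim0
      rw [h1, indicator_univ]
    rw [this]
    exact hT f hf R hR
  | succ J ih =>
    obtain ⟨C1, η1, hη1, h1⟩ := ih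
    obtain ⟨C2, η2, hη2, h2⟩ := halfspace n (C := C1) hp hη1
    refine ⟨C2, η2, hη2, fun {T} _ Φ Cl hΦ hm hb hs hT f hf l hl w hw R hR => ?_⟩
    have hset : ∀ (l : Fin J → E n) (w : Fin J → T → ℝ), (∀ j, Measurable (w j)) →
        MeasurableSet {x : E n | ∀ j, w j (Φ x) < inner ℝ (l j) x} := by
      intro l w hw
      rw [show {x : E n | ∀ j, w j (Φ x) < inner ℝ (l j) x} = ⋂ j, {x : E n | w j (Φ x) < inner ℝ (l j) x} by ext x; simp]
      exact MeasurableSet.iInter fun j => measurableSet_lt ((hw j).comp hΦ)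
        (Measurable.inner measurable_const measurable_id)
    have h3 := h2 Φ (fun g => ∃ f, Cl f ∧ ∃ l : Fin J → E n, (∀ j, ‖l j‖ = 1) ∧
      ∃ w : Fin J → T → ℝ, (∀ j, Measurable (w j)) ∧
        g = {x | ∀ j, w j (Φ x) < inner ℝ (l j) x}.indicator f) hΦ ?_ ?_ ?_ ?_
      ({x | ∀ j : Fin J, w j.succ (Φ x) < inner ℝ (l j.succ) x}.indicator f)
      ⟨f, hf, fun j => l j.succ, fun j => hl _, fun j => w j.succ, fun j => hw _, rfl⟩
      (l 0) (hl 0) (w 0) (hw 0) R hR
    · have h4 : ({x : E n | ∀ j, w j (Φ x) < inner ℝ (l j) x}.indicator f) = fun x =>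
          if w 0 (Φ x) < inner ℝ (l 0) x then
            ({x | ∀ j : Fin J, w j.succ (Φ x) < inner ℝ (l j.succ) x}.indicator f) x else 0 := by
        funext x
        by_cases ha : w 0 (Φ x) < inner ℝ (l 0) x
        · rw [if_pos ha]
          by_cases hb' : ∀ j : Fin J, w j.succ (Φ x) < inner ℝ (l j.succ) x
          · rw [indicator_of_mem (show x ∈ {x : E n | ∀ j, w j (Φ x) < inner ℝ (l j) x} from
              Fin.cases ha hb'), indicator_of_mem (show x ∈ {x : E n | ∀ j : Fin J,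
                w j.succ (Φ x) < inner ℝ (l j.succ) x} from hb')]
          · rw [indicator_of_notMem (show x ∉ {x : E n | ∀ j, w j (Φ x) < inner ℝ (l j) x} from
              fun h => hb' fun j => h _), indicator_of_notMem (show x ∉ {x : E n | ∀ j : Fin J,
                w j.succ (Φ x) < inner ℝ (l j.succ) x} from hb')]
        · rw [if_neg ha, indicator_of_notMem (show x ∉ {x : E n | ∀ j, w j (Φ x) <
            inner ℝ (l j) x} from fun h => ha (h 0))]
      rw [h4]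
      exact h3
    · rintro g ⟨f, hf, l, hl, w, hw, rfl⟩
      exact (hm f hf).indicator (hset l w hw)
    · rintro g ⟨f, hf, l, hl, w, hw, rfl⟩ x
      exact (norm_indicator_le_norm_self _ _).trans (hb f hf x)
    · rintro g ⟨f, hf, l, hl, w, hw, rfl⟩ F hF hF1
      refine ⟨fun x => f x * F (Φ x), hs f hf F hF hF1, l, hl, w, hw, ?_⟩
      funext x
      by_cases hx : x ∈ {x : E n | ∀ j, w j (Φ x) < inner ℝ (l j) x}
      · rw [indicator_of_mem hx, indicator_of_mem hx]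
      · rw [indicator_of_notMem hx, indicator_of_notMem hx, zero_mul]
    · rintro g ⟨f, hf, l, hl, w, hw, rfl⟩ R hR
      exact h1 Φ Cl hΦ hm hb hs hT f hf l hl w hw R hR

end Pool.Agent.HSL
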