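import Pool.Agent.HSL.H

/-!
Limits and averages; monotone factors.
-/

set_option autoImplicit false

namespace Pool.Agent.HSL

open MeasureTheory Set Metric Filter Topology Pool.Agent.MP_6cbfb8_an
open scoped ENNReal Real RealInnerProductSpace

/-- Bounds pass to limits almost everywhere on the sphere. -/
theorem tail_lim {n : ℕ} {p : ℝ} (A : Set (E n)) (B : ℝ≥0∞) (g : ℕ → E n → ℂ)
    (g0 : E n → ℂ) (hm : ∀ k, Measurable (g k)) (hb : ∀ k x, ‖g k x‖ ≤ 1)
    (hB : ∀ k, ∫⁻ ξ in A, ‖extn (g k) ξ‖ₑ ^ p ≤ B)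
    (hl : ∀ᵐ x : S n ∂(sm n), Tendsto (fun k => g k x) atTop (𝓝 (g0 x))) :
    ∫⁻ ξ in A, ‖extn g0 ξ‖ₑ ^ p ≤ B := by
  have hlim : ∀ ξ, Tendsto (fun k => ‖extn (g k) ξ‖ₑ ^ p) atTop (𝓝 (‖extn g0 ξ‖ₑ ^ p)) := by
    intro ξ
    refine ((ENNReal.continuous_rpow_const).tendsto _).comp ?_
    refine (continuous_enorm.tendsto _).comp ?_
    simp only [extn_ex]
    refine tendsto_integral_of_dominated_convergence (fun _ => (1 : ℝ)) ?_ (integrable_const _)
      ?_ ?_
    · intro k
      apply Measurable.aestronglyMeasurable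
      refine ((hm k).comp measurable_subtype_coe).mul (ex_cont.measurable.comp ?_)
      exact (Measurable.inner measurable_subtype_coe measurable_const).neg
    · intro k
      refine ae_of_all _ fun x => ?_
      rw [norm_mul, ex_norm, mul_one]
      exact hb k x
    · filter_upwards [hl] with x hx
      exact hx.mul tendsto_const_nhds
  calc ∫⁻ ξ in A, ‖extn g0 ξ‖ₑ ^ p =
      ∫⁻ ξ in A, liminf (fun k => ‖extn (g k) ξ‖ₑ ^ p) atTop :=
        lintegral_congr fun ξ => ((hlim ξ).liminf_eq).symm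
    _ ≤ liminf (fun k => ∫⁻ ξ in A, ‖extn (g k) ξ‖ₑ ^ p) atTop :=
        lintegral_liminf_le fun k => (extn_meas (hm k)).enorm.pow_const p
    _ ≤ _ := by
        refine liminf_le_of_le (by isBoundedDefault) fun b hb => ?_
        obtain ⟨k, hk⟩ := hb.exists
        exact hk.trans (hB k)

/-- Bounds pass to averages. -/
theorem tail_avg {n : ℕ} {p : ℝ} (hp : 1 < p) (A : Set (E n)) (B : ℝ≥0∞) {Y : Type*}
    [MeasurableSpace Y] (μ : Measure Y) [IsProbabilityMeasure μ] (G : Y → E n → ℂ)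
    (hm : Measurable (Function.uncurry G)) (hb : ∀ y x, ‖G y x‖ ≤ 1)
    (hB : ∀ y, ∫⁻ ξ in A, ‖extn (G y) ξ‖ₑ ^ p ≤ B) :
    ∫⁻ ξ in A, ‖extn (fun x => ∫ y, G y x ∂μ) ξ‖ₑ ^ p ≤ B := by
  have hp0 : 0 < p := by linarith
  -- joint measurability
  have hj : Measurable fun q : Y × E n => extn (G q.1) q.2 := by
    have h1 : StronglyMeasurable fun r : (Y × E n) × S n =>
        G r.1.1 r.2 * ex (-inner ℝ (r.2 : E n) r.1.2) := by
      apply Measurable.stronglyMeasurable
      have m1 : Measurable fun r : (Y × E n) × S n => ((r.2 : S n) : E n) := by fun_prop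
      have m2 : Measurable fun r : (Y × E n) × S n => (r.1.1, ((r.2 : S n) : E n)) :=
        (measurable_fst.comp measurable_fst).prodMk m1
      refine (hm.comp m2).mul (ex_cont.measurable.comp ?_)
      exact (Measurable.inner m1 (measurable_snd.comp measurable_fst)).neg
    have h2 := h1.integral_prod_right' (ν := sm n)
    have h3 : (fun q : Y × E n => extn (G q.1) q.2) = fun q => ∫ x : S n,
        G q.1 x * ex (-inner ℝ (x : E n) q.2) ∂(sm n) := funext fun q => extn_ex _ _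
    rw [h3]
    exact h2.measurable
  have hrep : ∀ ξ, extn (fun x => ∫ y, G y x ∂μ) ξ = ∫ y, extn (G y) ξ ∂μ := by
    intro ξ
    simp only [extn_ex]
    have h1 : ∀ x : S n, (∫ y, G y x ∂μ) * ex (-inner ℝ (x : E n) ξ) =
        ∫ y, G y x * ex (-inner ℝ (x : E n) ξ) ∂μ := fun x => by rw [integral_mul_const]
    simp only [h1]
    rw [integral_integral_swap]
    have hi : Integrable (fun _ : S n × Y => (1 : ℝ)) ((sm n).prod μ) := integrable_const _
    refine hi.mono' ?_ (ae_of_all _ fun r => ?_)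
    · apply Measurable.aestronglyMeasurable
      have m1 : Measurable fun r : S n × Y => ((r.1 : S n) : E n) := by fun_prop
      have m2 : Measurable fun r : S n × Y => (r.2, ((r.1 : S n) : E n)) := measurable_snd.prodMk m1
      exact (hm.comp m2).mul (ex_cont.measurable.comp (Measurable.inner m1 measurable_const).neg)
    · simp only [Function.uncurry]
      rw [norm_mul, ex_norm, mul_one]
      exact hb _ _
  have hmB : ∀ ξ, Measurable fun y => ‖extn (G y) ξ‖ₑ := fun ξ =>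
    (hj.comp measurable_prodMk_right).enorm
  have hpt : ∀ ξ, ‖extn (fun x => ∫ y, G y x ∂μ) ξ‖ₑ ^ p ≤ ∫⁻ y, ‖extn (G y) ξ‖ₑ ^ p ∂μ := by
    intro ξ
    rw [hrep]
    refine (ENNReal.rpow_le_rpow (enorm_integral_le_lintegral_enorm _) hp0.le).trans ?_
    have h1 := wj μ hp (k := fun _ => (1 : ℝ≥0∞)) (B := fun y => ‖extn (G y) ξ‖ₑ)
      aemeasurable_const (hmB ξ).aemeasurable
    simpa using h1
  calc ∫⁻ ξ in A, ‖extn (fun x => ∫ y, G y x ∂μ) ξ‖ₑ ^ p ≤
      ∫⁻ ξ in A, ∫⁻ y, ‖extn (G y) ξ‖ₑ ^ p ∂μ := lintegral_mono hpt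
    _ = ∫⁻ y, (∫⁻ ξ in A, ‖extn (G y) ξ‖ₑ ^ p) ∂μ := by
        rw [lintegral_lintegral_swap (f := fun ξ y => ‖extn (G y) ξ‖ₑ ^ p)]
        exact ((hj.comp measurable_swap).enorm.pow_const p).aemeasurable
    _ ≤ ∫⁻ y, B ∂μ := lintegral_mono hB
    _ = B := by simp

/-- A class of bounded measurable functions with uniform tails which is stable under unimodular
functions of `Φ`. -/
structure Tl {n : ℕ} {T : Type*} [MeasurableSpace T] (Φ : E n → T) (p η C : ℝ)
    (Cl : (E n → ℂ) → Prop) : Prop where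
  mΦ : Measurable Φ
  m : ∀ f, Cl f → Measurable f
  b : ∀ f, Cl f → ∀ x, ‖f x‖ ≤ 1
  s : ∀ f, Cl f → ∀ F : T → ℂ, Measurable F → (∀ t, ‖F t‖ = 1) → Cl (fun x => f x * F (Φ x))
  t : ∀ f, Cl f → ∀ R : ℝ, 1 ≤ R → ∫⁻ ξ in {ξ : E n | R ≤ ‖ξ‖}, ‖extn f ξ‖ₑ ^ p ≤
    ENNReal.ofReal (C * R ^ (-η))

/-- Rays, open or closed: the section at level `y` of a function which is monotone. -/
theorem rays {T : Type*} [MeasurableSpace T] (U : Set (T × ℝ)) (hU : MeasurableSet U)
    (hup : ∀ t s s', s ≤ s' → (t, s) ∈ U → (t, s') ∈ U) :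
    ∃ w : ℕ → T → ℝ, (∀ k, Measurable (w k)) ∧ ∀ t s, |s| ≤ 1 →
      ∀ᶠ k in atTop, (w k t < s ↔ (t, s) ∈ U) := by
  classical
  set Sx : T → Set ℝ := fun t => {s : ℝ | -2 ≤ s ∧ (t, s) ∈ U} ∪ {2} with hSx
  have hne : ∀ t, (Sx t).Nonempty := fun t => ⟨2, Or.inr rfl⟩
  have hbd : ∀ t, BddBelow (Sx t) := fun t => ⟨-2, by
    rintro s (⟨h, -⟩ | h)
    · exact h
    · rw [mem_singleton_iff.1 h]
      norm_num⟩
  set τ : T → ℝ := fun t => sInf (Sx t) with hτ
  have hτm : Measurable τ := by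
    refine measurable_of_Iio fun c => ?_
    by_cases hc : 2 < c
    · have : τ ⁻¹' Iio c = univ := by
        refine eq_univ_of_forall fun t => ?_
        exact lt_of_le_of_lt (csInf_le (hbd t) (Or.inr rfl)) hc
      rw [this]
      exact MeasurableSet.univ
    · rw [not_lt] at hc
      have : τ ⁻¹' Iio c = ⋃ r : ℚ, ⋃ _ : (-2 : ℝ) ≤ r ∧ (r : ℝ) < c, {t | (t, (r : ℝ)) ∈ U} := by
        ext t
        simp only [mem_preimage, mem_Iio, mem_iUnion, exists_prop]
        constructor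
        · intro h
          obtain ⟨s, hs, hsc⟩ := (csInf_lt_iff (hbd t) (hne t)).1 h
          rcases hs with ⟨h1, h2⟩ | h1
          · obtain ⟨r, hr1, hr2⟩ := exists_rat_btwn hsc
            exact ⟨r, ⟨h1.trans hr1.le, hr2⟩, hup t s r hr1.le h2⟩
          · rw [mem_singleton_iff.1 h1] at hsc
            exact absurd hsc (not_lt.2 hc)
        · rintro ⟨r, ⟨h1, h2⟩, h3⟩
          exact lt_of_le_of_lt (csInf_le (hbd t) (Or.inl ⟨h1, h3⟩)) h2
      rw [this]
      refine MeasurableSet.iUnion fun r => MeasurableSet.iUnion fun _ => ?_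
      exact measurable_prodMk_right hU
  have hB : MeasurableSet {t | (t, τ t) ∈ U} := (measurable_id.prodMk hτm) hU
  refine ⟨fun k t => if (t, τ t) ∈ U then τ t - 1 / ((k : ℝ) + 1) else τ t, fun k => ?_, ?_⟩
  · exact Measurable.ite hB (hτm.sub measurable_const) hτm
  intro t s hs
  have hs1 := abs_le.1 hs
  rcases lt_trichotomy s (τ t) with h | h | h
  · have h1 : ∀ᶠ k : ℕ in atTop, 1 / ((k : ℝ) + 1) < τ t - s :=
      tendsto_one_div_add_atTop_nhds_zero_nat.eventually_lt_const (by linarith)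
    filter_upwards [h1] with k hk
    have h2 : (t, s) ∉ U := fun h2 => absurd (csInf_le (hbd t) (Or.inl ⟨by linarith, h2⟩))
      (not_le.2 h)
    refine iff_of_false ?_ h2
    split_ifs <;> linarith
  · refine Eventually.of_forall fun k => ?_
    have hk : 0 < 1 / ((k : ℝ) + 1) := by positivity
    subst h
    beta_reduce
    by_cases hU' : (t, τ t) ∈ U
    · rw [if_pos hU']
      exact iff_of_true (by linarith) hU'
    · rw [if_neg hU']
      exact iff_of_false (lt_irrefl _) hU'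
  · refine Eventually.of_forall fun k => ?_
    have hk : 0 < 1 / ((k : ℝ) + 1) := by positivity
    obtain ⟨s', hs', hlt⟩ := (csInf_lt_iff (hbd t) (hne t)).1 h
    have h2 : (t, s) ∈ U := by
      rcases hs' with ⟨-, h3⟩ | h3
      · exact hup t s' s hlt.le h3
      · rw [mem_singleton_iff.1 h3] at hlt
        linarith
    refine iff_of_true ?_ h2
    beta_reduce
    split_ifs <;> linarith

/-- **Monotone factors.** -/
theorem monofac (n : ℕ) {p η C : ℝ} (hp : 1 < p) (hη : 0 < η) :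
    ∃ C' η' : ℝ, 0 < η' ∧ ∀ {T : Type*} [MeasurableSpace T] (Φ : E n → T)
      (Cl : (E n → ℂ) → Prop), Tl Φ p η C Cl → ∀ f, Cl f → ∀ l : E n, ‖l‖ = 1 →
      ∀ V : T → ℝ → ℝ, Measurable (Function.uncurry V) → (∀ t s, 0 ≤ V t s) →
      (∀ t s, V t s ≤ 1) → (∀ t, Monotone (V t)) → ∀ R : ℝ, 1 ≤ R →
      ∫⁻ ξ in {ξ : E n | R ≤ ‖ξ‖}, ‖extn (fun x => f x * (V (Φ x) (inner ℝ l x) : ℂ)) ξ‖ₑ ^ p ≤
        ENNReal.ofReal (C' * R ^ (-η')) := by
  classical
  obtain ⟨C', η', hη', hh⟩ := halfspace n (C := C) hp hη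
  have hp0 : 0 < p := by linarith
  refine ⟨C', η', hη', fun {T} _ Φ Cl hT f hf l hl V hVm hV0 hV1 hVmono R hR => ?_⟩
  have hfm := hT.m f hf
  have hfb := hT.b f hf
  have hlm : Measurable fun x : E n => inner ℝ l x := Measurable.inner measurable_const measurable_id
  set μ : Measure ℝ := volume.restrict (Ioo 0 1) with hμ
  have : IsProbabilityMeasure μ := ⟨by simp [hμ]⟩
  set G : ℝ → E n → ℂ := fun y x => if y < V (Φ x) (inner ℝ l x) then f x else 0 with hG
  have hVΦ : Measurable fun x => V (Φ x) (inner ℝ l x) := hVm.comp (hT.mΦ.prodMk hlm)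
  have hGm : Measurable (Function.uncurry G) := by
    refine Measurable.ite ?_ (hfm.comp measurable_snd) measurable_const
    exact measurableSet_lt measurable_fst (hVΦ.comp measurable_snd)
  have hGb : ∀ y x, ‖G y x‖ ≤ 1 := by
    intro y x
    simp only [hG]
    split_ifs
    · exact hfb x
    · simp
  have hGy : ∀ y, ∫⁻ ξ in {ξ : E n | R ≤ ‖ξ‖}, ‖extn (G y) ξ‖ₑ ^ p ≤
      ENNReal.ofReal (C' * R ^ (-η')) := by
    intro y
    obtain ⟨w, hwm, hw⟩ := rays {q : T × ℝ | y < V q.1 q.2}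
      (measurableSet_lt measurable_const hVm) (fun t s s' hss h => lt_of_lt_of_le h (hVmono t hss))
    refine tail_lim _ _ (fun k x => if w k (Φ x) < inner ℝ l x then f x else 0) _
      (fun k => Measurable.ite (measurableSet_lt ((hwm k).comp hT.mΦ) hlm) hfm measurable_const)
      (fun k x => ?_) (fun k => hh Φ Cl hT.mΦ hT.m hT.b hT.s hT.t f hf l hl (w k) (hwm k) R hR)
      (ae_of_all _ fun x => ?_)
    · split_ifs
      · exact hfb x
      · simp
    · have hx1 : ‖(x : E n)‖ = 1 := by simp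
      have hlx : |inner ℝ l (x : E n)| ≤ 1 := by
        have := abs_real_inner_le_norm l (x : E n)
        rwa [hl, hx1, mul_one] at this
      refine tendsto_const_nhds.congr' ?_
      filter_upwards [hw (Φ x) _ hlx] with k hk
      simp only [hG]
      by_cases h1 : y < V (Φ x) (inner ℝ l (x : E n))
      · rw [if_pos h1, if_pos (hk.2 h1)]
      · rw [if_neg h1, if_neg (fun h2 => h1 (hk.1 h2))]
  have hav := tail_avg hp {ξ : E n | R ≤ ‖ξ‖} _ μ G hGm hGb hGy
  have hfun : (fun x => f x * (V (Φ x) (inner ℝ l x) : ℂ)) = fun x => ∫ y, G y x ∂μ := by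
    funext x
    set c := V (Φ x) (inner ℝ l x) with hc
    have hc0 : 0 ≤ c := hV0 _ _
    have hc1 : c ≤ 1 := hV1 _ _
    have h1 : ∀ y, G y x = (Iio c).indicator (fun _ => f x) y := by
      intro y
      by_cases hy : y < c
      · rw [indicator_of_mem (show y ∈ Iio c from hy)]
        exact if_pos hy
      · rw [indicator_of_notMem (show y ∉ Iio c from hy)]
        exact if_neg hy
    simp only [h1]
    rw [integral_indicator measurableSet_Iio, hμ, Measure.restrict_restrict measurableSet_Iio,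
      setIntegral_const]
    have h2 : Iio c ∩ Ioo 0 1 = Ioo 0 c := by
      ext y
      simp only [mem_inter_iff, mem_Iio, mem_Ioo]
      constructor
      · rintro ⟨h, h', -⟩
        exact ⟨h', h⟩
      · rintro ⟨h, h'⟩
        exact ⟨h', h, lt_of_lt_of_le h' hc1⟩
    rw [h2, Real.volume_real_Ioo_of_le hc0, sub_zero, Complex.real_smul, mul_comm]
  rw [hfun]
  exact hav

end Pool.Agent.HSL
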