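import Pool.Agent.HSL.V

/-!
Factors of bounded variation.
-/

set_option autoImplicit false

namespace Pool.Agent.HSL

open MeasureTheory Set Metric Filter Topology Pool.Agent.MP_6cbfb8_an
open scoped ENNReal Real RealInnerProductSpace

theorem bd_int {n : ℕ} {g : E n → ℂ} (hm : Measurable g) {K : ℝ} (hb : ∀ x, ‖g x‖ ≤ K) (ξ : E n) :
    Integrable (fun x : S n => g x * ex (-inner ℝ (x : E n) ξ)) (sm n) := by
  refine (integrable_const K).mono' ?_ (ae_of_all _ fun x => ?_)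
  · apply Measurable.aestronglyMeasurable
    refine (hm.comp measurable_subtype_coe).mul (ex_cont.measurable.comp ?_)
    exact (Measurable.inner measurable_subtype_coe measurable_const).neg
  · rw [norm_mul, ex_norm, mul_one]
    exact hb x

theorem tail_add {n : ℕ} {p : ℝ} (hp : 1 < p) (A : Set (E n)) (B1 B2 : ℝ≥0∞) {g1 g2 : E n → ℂ}
    (m1 : Measurable g1) (m2 : Measurable g2) {K1 K2 : ℝ} (b1 : ∀ x, ‖g1 x‖ ≤ K1)
    (b2 : ∀ x, ‖g2 x‖ ≤ K2) (h1 : ∫⁻ ξ in A, ‖extn g1 ξ‖ₑ ^ p ≤ B1)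
    (h2 : ∫⁻ ξ in A, ‖extn g2 ξ‖ₑ ^ p ≤ B2) :
    ∫⁻ ξ in A, ‖extn (fun x => g1 x + g2 x) ξ‖ₑ ^ p ≤ ENNReal.ofReal (2 ^ (p - 1)) * (B1 + B2) := by
  have hp0 : 0 < p := by linarith
  have he : ∀ ξ, extn (fun x => g1 x + g2 x) ξ = extn g1 ξ + extn g2 ξ := by
    intro ξ
    rw [extn_ex, extn_ex, extn_ex, ← integral_add (bd_int m1 b1 ξ) (bd_int m2 b2 ξ)]
    congr 1
    funext x
    ring
  calc ∫⁻ ξ in A, ‖extn (fun x => g1 x + g2 x) ξ‖ₑ ^ p ≤
      ∫⁻ ξ in A, ENNReal.ofReal (2 ^ (p - 1)) * (‖extn g1 ξ‖ₑ ^ p + ‖extn g2 ξ‖ₑ ^ p) := by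
        refine lintegral_mono fun ξ => ?_
        rw [he]
        refine (ENNReal.rpow_le_rpow (enorm_add_le _ _) hp0.le).trans ?_
        refine (ENNReal.rpow_add_le_mul_rpow_add_rpow _ _ hp.le).trans (le_of_eq ?_)
        rw [← ENNReal.ofReal_rpow_of_pos (by norm_num), ENNReal.ofReal_ofNat]
    _ = ENNReal.ofReal (2 ^ (p - 1)) * ((∫⁻ ξ in A, ‖extn g1 ξ‖ₑ ^ p) +
        ∫⁻ ξ in A, ‖extn g2 ξ‖ₑ ^ p) := by
        rw [lintegral_const_mul' _ _ ENNReal.ofReal_ne_top,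
          lintegral_add_left ((extn_meas m1).enorm.pow_const p)]
    _ ≤ _ := by gcongr

theorem tail_smul {n : ℕ} {p : ℝ} (hp : 0 < p) (A : Set (E n)) (B : ℝ≥0∞) {g : E n → ℂ} (c : ℂ)
    (h : ∫⁻ ξ in A, ‖extn g ξ‖ₑ ^ p ≤ B) :
    ∫⁻ ξ in A, ‖extn (fun x => c * g x) ξ‖ₑ ^ p ≤ ENNReal.ofReal (‖c‖ ^ p) * B := by
  have he : ∀ ξ, extn (fun x => c * g x) ξ = c * extn g ξ := by
    intro ξ
    rw [extn_ex, extn_ex, ← integral_const_mul]
    congr 1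
    funext x
    ring
  calc ∫⁻ ξ in A, ‖extn (fun x => c * g x) ξ‖ₑ ^ p =
      ∫⁻ ξ in A, ENNReal.ofReal (‖c‖ ^ p) * ‖extn g ξ‖ₑ ^ p := by
        refine lintegral_congr fun ξ => ?_
        rw [he, enorm_mul, ENNReal.mul_rpow_of_nonneg _ _ hp.le,
          ← ENNReal.ofReal_rpow_of_nonneg (norm_nonneg _) hp.le, ofReal_norm]
    _ ≤ _ := by
        rw [lintegral_const_mul' _ _ ENNReal.ofReal_ne_top]
        gcongr

/-- Four monotone factors. -/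
theorem fourfac (n : ℕ) {p η C : ℝ} (hp : 1 < p) (hη : 0 < η) (K : ℝ) (hK : 0 ≤ K) :
    ∃ C' η' : ℝ, 0 < η' ∧ ∀ {T : Type*} [MeasurableSpace T] (Φ : E n → T)
      (Cl : (E n → ℂ) → Prop), Tl Φ p η C Cl → ∀ f, Cl f → ∀ l : E n, ‖l‖ = 1 →
      ∀ V : Fin 4 → T → ℝ → ℝ, (∀ j, Measurable (Function.uncurry (V j))) →
      (∀ j t s, 0 ≤ V j t s) → (∀ j t s, V j t s ≤ K) → (∀ j t, Monotone (V j t)) →
      ∀ ω : Fin 4 → ℂ, (∀ j, ‖ω j‖ = 1) → ∀ R : ℝ, 1 ≤ R →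
      ∫⁻ ξ in {ξ : E n | R ≤ ‖ξ‖},
        ‖extn (fun x => f x * ∑ j, ω j * (V j (Φ x) (inner ℝ l x) : ℂ)) ξ‖ₑ ^ p ≤
        ENNReal.ofReal (C' * R ^ (-η')) := by
  have hp0 : 0 < p := by linarith
  obtain ⟨C1, η', hη', hh⟩ := monofac n (C := C) hp hη
  refine ⟨2 ^ (p - 1) * (2 ^ (p - 1) * ((K + 1) ^ p * max C1 0 + (K + 1) ^ p * max C1 0) +
    2 ^ (p - 1) * ((K + 1) ^ p * max C1 0 + (K + 1) ^ p * max C1 0)), η', hη', ?_⟩
  intro T _ Φ Cl hT f hf l hl V hVm hV0 hV1 hVmono ω hω R hR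
  have hR0 : 0 < R := by linarith
  have hK1 : 0 < K + 1 := by linarith
  have hlm : Measurable fun x : E n => inner ℝ l x := Measurable.inner measurable_const measurable_id
  set A : Set (E n) := {ξ : E n | R ≤ ‖ξ‖} with hA
  set g : Fin 4 → E n → ℂ := fun j x => ω j * (K + 1 : ℝ) *
    (f x * ((V j (Φ x) (inner ℝ l x) / (K + 1) : ℝ) : ℂ)) with hg
  have hgm : ∀ j, Measurable (g j) := by
    intro j
    refine Measurable.const_mul ?_ _
    refine (hT.m f hf).mul (Complex.measurable_ofReal.comp ?_)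
    exact ((hVm j).comp (hT.mΦ.prodMk hlm)).div_const _
  have hgb : ∀ j x, ‖g j x‖ ≤ K + 1 := by
    intro j x
    simp only [hg]
    rw [norm_mul, norm_mul, norm_mul, hω, one_mul, Complex.norm_real, Complex.norm_real,
      Real.norm_eq_abs, Real.norm_eq_abs, abs_of_pos hK1, abs_of_nonneg (div_nonneg (hV0 _ _ _)
      hK1.le)]
    have h1 : V j (Φ x) (inner ℝ l x) / (K + 1) ≤ 1 := by
      rw [div_le_one hK1]
      linarith [hV1 j (Φ x) (inner ℝ l x)]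
    have h2 : ‖f x‖ * (V j (Φ x) (inner ℝ l x) / (K + 1)) ≤ 1 :=
      mul_le_one₀ (hT.b f hf x) (div_nonneg (hV0 _ _ _) hK1.le) h1
    calc (K + 1) * (‖f x‖ * (V j (Φ x) (inner ℝ l x) / (K + 1))) ≤ (K + 1) * 1 := by gcongr
      _ = K + 1 := mul_one _
  have hgt : ∀ j, ∫⁻ ξ in A, ‖extn (g j) ξ‖ₑ ^ p ≤
      ENNReal.ofReal ((K + 1) ^ p * max C1 0 * R ^ (-η')) := by
    intro j
    have h1 := hh Φ Cl hT f hf l hl (fun t s => V j t s / (K + 1)) ((hVm j).div_const _)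
      (fun t s => div_nonneg (hV0 _ _ _) hK1.le) (fun t s => by
        rw [div_le_one hK1]
        linarith [hV1 j t s]) (fun t => (hVmono j t).div_const hK1.le) R hR
    have h2 := tail_smul hp0 A _ (ω j * (K + 1 : ℝ)) h1
    refine h2.trans ?_
    rw [← ENNReal.ofReal_mul (by positivity)]
    refine ENNReal.ofReal_le_ofReal ?_
    rw [norm_mul, hω, one_mul, Complex.norm_real, Real.norm_eq_abs, abs_of_pos hK1, mul_assoc]
    gcongr
    exact le_max_left _ _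
  have hfun : (fun x => f x * ∑ j, ω j * (V j (Φ x) (inner ℝ l x) : ℂ)) =
      fun x => (g 0 x + g 1 x) + (g 2 x + g 3 x) := by
    funext x
    have h1 : ∀ j, g j x = f x * (ω j * (V j (Φ x) (inner ℝ l x) : ℂ)) := by
      intro j
      simp only [hg]
      have h2 : ((K + 1 : ℝ) : ℂ) * ((V j (Φ x) (inner ℝ l x) / (K + 1) : ℝ) : ℂ) =
          (V j (Φ x) (inner ℝ l x) : ℂ) := by
        rw [← Complex.ofReal_mul]
        congr 1
        field_simp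
      calc ω j * ((K + 1 : ℝ) : ℂ) * (f x * ((V j (Φ x) (inner ℝ l x) / (K + 1) : ℝ) : ℂ)) =
          f x * (ω j * (((K + 1 : ℝ) : ℂ) * ((V j (Φ x) (inner ℝ l x) / (K + 1) : ℝ) : ℂ))) := by
            ring
        _ = _ := by rw [h2]
    rw [Fin.sum_univ_four, h1, h1, h1, h1]
    ring
  rw [hfun]
  have k1 := tail_add hp A _ _ (hgm 0) (hgm 1) (hgb 0) (hgb 1) (hgt 0) (hgt 1)
  have k2 := tail_add hp A _ _ (hgm 2) (hgm 3) (hgb 2) (hgb 3) (hgt 2) (hgt 3)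
  have k3 := tail_add hp A _ _ ((hgm 0).add (hgm 1)) ((hgm 2).add (hgm 3))
    (fun x => (norm_add_le _ _).trans (add_le_add (hgb 0 x) (hgb 1 x)))
    (fun x => (norm_add_le _ _).trans (add_le_add (hgb 2 x) (hgb 3 x))) k1 k2
  refine k3.trans (le_of_eq ?_)
  rw [← ENNReal.ofReal_add (by positivity) (by positivity), ← ENNReal.ofReal_mul (by positivity),
    ← ENNReal.ofReal_add (by positivity) (by positivity), ← ENNReal.ofReal_mul (by positivity)]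
  congr 1
  ring

end Pool.Agent.HSL
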