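import Pool.Agent.HSL.W

/-!
Factors of bounded variation.
-/

set_option autoImplicit false

namespace Pool.Agent.HSL

open MeasureTheory Set Metric Filter Topology Pool.Agent.MP_6cbfb8_an
open scoped ENNReal Real RealInnerProductSpace

/-- The mean of `G t` over `[s, s + ε]`. -/
noncomputable def mn {T : Type*} (G : T → ℝ → ℂ) (ε : ℝ) (t : T) (s : ℝ) : ℂ :=
  (ε : ℂ)⁻¹ * ∫ y in s..(s + ε), G t y

/-- The difference quotient. -/
noncomputable def dq {T : Type*} (G : T → ℝ → ℂ) (ε : ℝ) (t : T) (s : ℝ) : ℂ :=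
  (ε : ℂ)⁻¹ * (G t (s + ε) - G t s)

theorem ii_of {g : ℝ → ℂ} (hm : Measurable g) {K : ℝ} (hb : ∀ s, ‖g s‖ ≤ K) (a b : ℝ) :
    IntervalIntegrable g volume a b := by
  rw [intervalIntegrable_iff]
  exact Measure.integrableOn_of_bounded (M := K) (by simp [uIoc]) hm.aestronglyMeasurable
    (ae_of_all _ fun s => hb s)

theorem mn_meas {T : Type*} [MeasurableSpace T] {G : T → ℝ → ℂ}
    (hG : Measurable (Function.uncurry G)) {ε : ℝ} (hε : 0 < ε) :
    Measurable (Function.uncurry (mn G ε)) := by
  have h1 : StronglyMeasurable fun r : (T × ℝ) × ℝ => G r.1.1 (r.1.2 + r.2) := by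
    apply Measurable.stronglyMeasurable
    have : Measurable fun r : (T × ℝ) × ℝ => (r.1.1, r.1.2 + r.2) := by fun_prop
    exact hG.comp this
  have h2 := (h1.integral_prod_right' (ν := volume.restrict (Ioc 0 ε))).measurable
  have h3 : (Function.uncurry (mn G ε)) = fun q : T × ℝ => (ε : ℂ)⁻¹ *
      ∫ y in Ioc 0 ε, G q.1 (q.2 + y) := by
    funext q
    simp only [Function.uncurry, mn]
    rw [← intervalIntegral.integral_of_le hε.le,
      intervalIntegral.integral_comp_add_left (fun y => G q.1 y) q.2, add_zero]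
  rw [h3]
  exact h2.const_mul _

theorem mn_le {T : Type*} {G : T → ℝ → ℂ} (hb : ∀ t s, ‖G t s‖ ≤ 1) {ε : ℝ} (hε : 0 < ε) (t : T)
    (s : ℝ) : ‖mn G ε t s‖ ≤ 1 := by
  have h1 := intervalIntegral.norm_integral_le_of_norm_le_const (a := s) (b := s + ε)
    (f := fun y => G t y) (C := 1) (fun y _ => hb t y)
  rw [add_sub_cancel_left, abs_of_pos hε, one_mul] at h1
  rw [mn, norm_mul, norm_inv, Complex.norm_real, Real.norm_eq_abs, abs_of_pos hε,
    inv_mul_le_iff₀ hε, mul_one]
  exact h1

/-- The means are primitives of the difference quotients. -/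
theorem mn_eq {T : Type*} {G : T → ℝ → ℂ} (t : T) (hm : Measurable (G t))
    (hb : ∀ s, ‖G t s‖ ≤ 1) (ε a s : ℝ) :
    mn G ε t s = mn G ε t a + ∫ y in a..s, dq G ε t y := by
  have i0 : ∀ a b, IntervalIntegrable (G t) volume a b := fun a b => ii_of hm hb a b
  have i1 : IntervalIntegrable (fun y => G t (y + ε)) volume a s :=
    ii_of (hm.comp (measurable_id.add_const ε)) (fun y => hb _) a s
  have h1 : ∫ y in a..s, dq G ε t y = (ε : ℂ)⁻¹ * ((∫ y in (a + ε)..(s + ε), G t y) -
      ∫ y in a..s, G t y) := by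
    simp only [dq]
    rw [intervalIntegral.integral_const_mul, intervalIntegral.integral_sub i1 (i0 a s),
      intervalIntegral.integral_comp_add_right (fun y => G t y) ε]
  rw [h1, mn, mn, ← mul_add]
  congr 1
  have e1 := intervalIntegral.integral_add_adjacent_intervals (i0 a s) (i0 s (s + ε))
  have e2 := intervalIntegral.integral_add_adjacent_intervals (i0 a (a + ε)) (i0 (a + ε) (s + ε))
  rw [← e2] at e1
  linear_combination e1

/-- The four parts of a complex number. -/
noncomputable def prt (j : Fin 4) (z : ℂ) : ℝ :=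
  ![max z.re 0, max (-z.re) 0, max z.im 0, max (-z.im) 0] j

/-- The four units. -/
noncomputable def unt (j : Fin 4) : ℂ := ![1, -1, Complex.I, -Complex.I] j

theorem unt_norm (j : Fin 4) : ‖unt j‖ = 1 := by
  fin_cases j <;> simp [unt]

theorem prt_nonneg (j : Fin 4) (z : ℂ) : 0 ≤ prt j z := by
  fin_cases j <;> simp [prt]

theorem prt_le (j : Fin 4) (z : ℂ) : prt j z ≤ ‖z‖ := by
  have h1 := Complex.abs_re_le_norm z
  have h2 := Complex.abs_im_le_norm z
  have h3 := abs_le.1 h1
  have h4 := abs_le.1 h2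
  fin_cases j <;> simp [prt] <;> linarith

theorem prt_meas (j : Fin 4) : Measurable (prt j) := by
  have h1 : Measurable fun z : ℂ => max z.re 0 := Complex.measurable_re.max measurable_const
  have h2 : Measurable fun z : ℂ => max (-z.re) 0 := Complex.measurable_re.neg.max measurable_const
  have h3 : Measurable fun z : ℂ => max z.im 0 := Complex.measurable_im.max measurable_const
  have h4 : Measurable fun z : ℂ => max (-z.im) 0 := Complex.measurable_im.neg.max measurable_const
  fin_cases j
  · exact h1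
  · exact h2
  · exact h3
  · exact h4

theorem sum_prt (z : ℂ) : ∑ j, unt j * (prt j z : ℂ) = z := by
  rw [Fin.sum_univ_four]
  have h1 : ∀ x : ℝ, max x 0 - max (-x) 0 = x := by
    intro x
    rcases le_total 0 x with h | h
    · rw [max_eq_left h, max_eq_right (by linarith)]
      ring
    · rw [max_eq_right h, max_eq_left (by linarith)]
      ring
  apply Complex.ext
  · simp [unt, prt]
    linarith [h1 z.re]
  · simp [unt, prt]
    linarith [h1 z.im]

/-- **Factors of bounded variation.** -/
theorem bvfac (n : ℕ) {p η C : ℝ} (hp : 1 < p) (hη : 0 < η) (V : ℝ) :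
    ∃ C' η' : ℝ, 0 < η' ∧ ∀ {T : Type*} [MeasurableSpace T] (Φ : E n → T)
      (Cl : (E n → ℂ) → Prop), Tl Φ p η C Cl → ∀ f, Cl f → ∀ l : E n, ‖l‖ = 1 →
      ∀ G : T → ℝ → ℂ, Measurable (Function.uncurry G) → (∀ t s, ‖G t s‖ ≤ 1) →
      (∀ t, ∀ h : ℝ, 0 < h → ∫⁻ s, ‖G t (s + h) - G t s‖ₑ ≤ ENNReal.ofReal (V * h)) →
      (∀ N : Set (T × ℝ), MeasurableSet N → (∀ t, volume {s | (t, s) ∈ N} = 0) →
        ∀ᵐ x : S n ∂(sm n), f x = 0 ∨ (Φ x, inner ℝ l (x : E n)) ∉ N) → ∀ R : ℝ, 1 ≤ R →
      ∫⁻ ξ in {ξ : E n | R ≤ ‖ξ‖}, ‖extn (fun x => f x * G (Φ x) (inner ℝ l x)) ξ‖ₑ ^ p ≤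
        ENNReal.ofReal (C' * R ^ (-η')) := by
  have hp0 : 0 < p := by linarith
  set V1 : ℝ := max V 0 with hV1
  have hV10 : 0 ≤ V1 := le_max_right _ _
  obtain ⟨C', η', hη', hh⟩ := fourfac n (C := C) hp hη (1 + V1) (by positivity)
  refine ⟨C', η', hη', fun {T} _ Φ Cl hT f hf l hl G hGm hGb hGV hN R hR => ?_⟩
  have hlm : Measurable fun x : E n => inner ℝ l x := Measurable.inner measurable_const measurable_id
  have hfm := hT.m f hf
  have hfb := hT.b f hf
  have hGt : ∀ t, Measurable (G t) := fun t => hGm.comp measurable_prodMk_left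
  set ε : ℕ → ℝ := fun k => 1 / ((k : ℝ) + 1) with hε
  have hε0 : ∀ k, 0 < ε k := fun k => by positivity
  have hdqb : ∀ k t s, ‖dq G (ε k) t s‖ ≤ (ε k)⁻¹ * 2 := by
    intro k t s
    rw [dq, norm_mul, norm_inv, Complex.norm_real, Real.norm_eq_abs, abs_of_pos (hε0 k)]
    have h1 := norm_sub_le (G t (s + ε k)) (G t s)
    have h2 := hGb t (s + ε k)
    have h3 := hGb t s
    have h4 : 0 < (ε k)⁻¹ := inv_pos.2 (hε0 k)
    gcongr
    linarith
  have hdqm : ∀ k, Measurable (Function.uncurry (dq G (ε k))) := by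
    intro k
    have h1 : Measurable fun q : T × ℝ => (q.1, q.2 + ε k) := by fun_prop
    exact ((hGm.comp h1).sub hGm).const_mul _
  -- the integrals of the parts of the difference quotients
  have hint : ∀ k j t a b, IntegrableOn (fun y => prt j (dq G (ε k) t y)) (Ioc a b) volume := by
    intro k j t a b
    refine (integrable_const ((ε k)⁻¹ * 2)).mono' ?_ (ae_of_all _ fun y => ?_)
    · exact ((prt_meas j).comp ((hdqm k).comp measurable_prodMk_left)).aestronglyMeasurable
    · rw [Real.norm_eq_abs, abs_of_nonneg (prt_nonneg _ _)]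
      exact (prt_le _ _).trans (hdqb k t y)
  have hmass : ∀ k j t a b, ∫ y in Ioc a b, prt j (dq G (ε k) t y) ≤ V1 := by
    intro k j t a b
    rw [integral_eq_lintegral_of_nonneg_ae (ae_of_all _ fun y => prt_nonneg _ _)
      (hint k j t a b).aestronglyMeasurable]
    refine ENNReal.toReal_le_of_le_ofReal hV10 ?_
    calc ∫⁻ y in Ioc a b, ENNReal.ofReal (prt j (dq G (ε k) t y)) ≤
        ∫⁻ y, ENNReal.ofReal (prt j (dq G (ε k) t y)) := setLIntegral_le_lintegral _ _
      _ ≤ ∫⁻ y, ENNReal.ofReal ((ε k)⁻¹) * ‖G t (y + ε k) - G t y‖ₑ := by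
          refine lintegral_mono fun y => ?_
          refine (ENNReal.ofReal_le_ofReal (prt_le _ _)).trans (le_of_eq ?_)
          rw [dq, norm_mul, norm_inv, Complex.norm_real, Real.norm_eq_abs, abs_of_pos (hε0 k),
            ENNReal.ofReal_mul (inv_pos.2 (hε0 k)).le, ofReal_norm]
      _ ≤ ENNReal.ofReal ((ε k)⁻¹) * ENNReal.ofReal (V * ε k) := by
          rw [lintegral_const_mul' _ _ ENNReal.ofReal_ne_top]
          gcongr
          exact hGV t _ (hε0 k)
      _ ≤ ENNReal.ofReal V1 := by
          rw [← ENNReal.ofReal_mul (inv_pos.2 (hε0 k)).le]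
          refine ENNReal.ofReal_le_ofReal ?_
          have h1 : (ε k)⁻¹ * (V * ε k) = V := by
            have := (hε0 k).ne'
            field_simp
          rw [h1]
          exact le_max_left _ _
  set W : ℕ → Fin 4 → T → ℝ → ℝ := fun k j t s =>
    prt j (mn G (ε k) t (-2)) + ∫ y in Ioc (-2) s, prt j (dq G (ε k) t y) with hW
  have hWm : ∀ k j, Measurable (Function.uncurry (W k j)) := by
    intro k j
    refine Measurable.add ?_ ?_
    · have h1 : Measurable fun q : T × ℝ => (q.1, (-2 : ℝ)) := by fun_prop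
      exact (prt_meas j).comp ((mn_meas hGm (hε0 k)).comp h1)
    · have h1 : StronglyMeasurable fun r : (T × ℝ) × ℝ =>
          {r : (T × ℝ) × ℝ | -2 < r.2 ∧ r.2 ≤ r.1.2}.indicator
            (fun r => prt j (dq G (ε k) r.1.1 r.2)) r := by
        apply Measurable.stronglyMeasurable
        refine Measurable.indicator ?_ ?_
        · have h2 : Measurable fun r : (T × ℝ) × ℝ => (r.1.1, r.2) := by fun_prop
          exact (prt_meas j).comp ((hdqm k).comp h2)
        · exact (measurableSet_lt measurable_const measurable_snd).inter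
            (measurableSet_le measurable_snd (measurable_snd.comp measurable_fst))
      have h2 := (h1.integral_prod_right' (ν := (volume : Measure ℝ))).measurable
      have h3 : (fun q : T × ℝ => ∫ y in Ioc (-2) q.2, prt j (dq G (ε k) q.1 y)) =
          fun q => ∫ y, {r : (T × ℝ) × ℝ | -2 < r.2 ∧ r.2 ≤ r.1.2}.indicator
            (fun r => prt j (dq G (ε k) r.1.1 r.2)) (q, y) := by
        funext q
        rw [← integral_indicator measurableSet_Ioc]
        congr 1
      exact h3 ▸ h2
  have hW0 : ∀ k j t s, 0 ≤ W k j t s := fun k j t s => add_nonneg (prt_nonneg _ _)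
    (integral_nonneg fun y => prt_nonneg _ _)
  have hW1 : ∀ k j t s, W k j t s ≤ 1 + V1 := fun k j t s =>
    add_le_add ((prt_le _ _).trans (mn_le hGb (hε0 k) t _)) (hmass k j t _ _)
  have hWmono : ∀ k j t, Monotone (W k j t) := by
    intro k j t a b hab
    refine add_le_add le_rfl ?_
    refine setIntegral_mono_set (hint k j t _ _) (ae_of_all _ fun y => prt_nonneg _ _) ?_
    exact (Ioc_subset_Ioc_right hab).eventuallyLE
  -- the representation of the means
  have hrep : ∀ k t s, -2 ≤ s → ∑ j, unt j * (W k j t s : ℂ) = mn G (ε k) t s := by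
    intro k t s hs
    have h1 := mn_eq (G := G) t (hGt t) (hGb t) (ε k) (-2) s
    have h2 : ∫ y in (-2)..s, dq G (ε k) t y =
        ∑ j, unt j * ((∫ y in Ioc (-2) s, prt j (dq G (ε k) t y) : ℝ) : ℂ) := by
      rw [intervalIntegral.integral_of_le hs]
      have h3 : ∀ y, dq G (ε k) t y = ∑ j, unt j * (prt j (dq G (ε k) t y) : ℂ) := fun y =>
        (sum_prt _).symm
      rw [integral_congr_ae (ae_of_all _ h3), integral_finsetSum]
      · refine Finset.sum_congr rfl fun j _ => ?_
        rw [integral_const_mul, integral_complex_ofReal]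
      · intro j _
        exact (hint k j t _ _).ofReal.const_mul _
    have h4 : mn G (ε k) t (-2) = ∑ j, unt j * (prt j (mn G (ε k) t (-2)) : ℂ) := (sum_prt _).symm
    rw [h1, h2]
    conv_rhs => rw [h4]
    rw [← Finset.sum_add_distrib]
    refine Finset.sum_congr rfl fun j _ => ?_
    rw [hW]
    push_cast
    ring
  have hx : ∀ x : S n, |inner ℝ l (x : E n)| ≤ 1 := by
    intro x
    have hx1 : ‖(x : E n)‖ = 1 := by simp
    have := abs_real_inner_le_norm l (x : E n)
    rwa [hl, hx1, mul_one] at this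
  -- the approximants
  have hgk : ∀ k, ∫⁻ ξ in {ξ : E n | R ≤ ‖ξ‖},
      ‖extn (fun x => f x * mn G (ε k) (Φ x) (inner ℝ l x)) ξ‖ₑ ^ p ≤
      ENNReal.ofReal (C' * R ^ (-η')) := by
    intro k
    refine le_trans (le_of_eq ?_) (hh Φ Cl hT f hf l hl (W k) (hWm k) (hW0 k) (hW1 k) (hWmono k)
      unt unt_norm R hR)
    refine lintegral_congr fun ξ => ?_
    congr 2
    rw [extn_ex, extn_ex]
    refine integral_congr_ae (ae_of_all _ fun x => ?_)
    beta_reduce
    rw [hrep k (Φ x) _ (by linarith [(abs_le.1 (hx x)).1])]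
  set N : Set (T × ℝ) := {q | ¬ Tendsto (fun k => mn G (ε k) q.1 q.2) atTop (𝓝 (G q.1 q.2))}
    with hNd
  have hNm : MeasurableSet N := by
    refine MeasurableSet.compl ?_
    exact measurableSet_tendsto_fun (fun k => mn_meas hGm (hε0 k)) hGm
  have hN0 : ∀ t, volume {s | (t, s) ∈ N} = 0 := by
    intro t
    have hli : LocallyIntegrable (G t) volume := by
      rw [locallyIntegrable_iff]
      intro K hK
      refine Measure.integrableOn_of_bounded (M := 1) hK.measure_lt_top.ne
        (hGt t).aestronglyMeasurable (ae_of_all _ fun s => hGb t s)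
    have h1 := IsUnifLocDoublingMeasure.ae_tendsto_average (μ := (volume : Measure ℝ)) hli 1
    have h2 : ∀ᵐ s : ℝ, s ∉ {s | (t, s) ∈ N} := by
      filter_upwards [h1] with s hs
      have h3 := hs (ι := ℕ) (l := atTop) (fun k => s + ε k / 2) (fun k => ε k / 2) ?_ ?_
      · have h4 : ∀ k, (⨍ y in closedBall (s + ε k / 2) (ε k / 2), G t y) = mn G (ε k) t s := by
          intro k
          have e1 : closedBall (s + ε k / 2) (ε k / 2) = Icc s (s + ε k) := by
            rw [Real.closedBall_eq_Icc]
            congr 1 <;> ring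
          rw [setAverage_eq, e1, integral_Icc_eq_integral_Ioc,
            ← intervalIntegral.integral_of_le (by linarith [hε0 k]), mn,
            Real.volume_real_Icc_of_le (by linarith [hε0 k]), add_sub_cancel_left,
            Complex.real_smul, Complex.ofReal_inv]
        simp only [h4] at h3
        intro h5
        exact h5 h3
      · rw [tendsto_nhdsWithin_iff]
        refine ⟨?_, Eventually.of_forall fun k => ?_⟩
        · have := (tendsto_one_div_add_atTop_nhds_zero_nat (𝕜 := ℝ)).div_const 2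
          rw [zero_div] at this
          exact this
        · exact half_pos (hε0 k)
      · refine Eventually.of_forall fun k => ?_
        rw [mem_closedBall, Real.dist_eq, one_mul]
        have := hε0 k
        rw [show s - (s + ε k / 2) = -(ε k / 2) by ring, abs_neg, abs_of_pos (by linarith)]
    exact measure_eq_zero_iff_ae_notMem.2 h2
  refine tail_lim _ _ (fun k x => f x * mn G (ε k) (Φ x) (inner ℝ l x)) _ (fun k => ?_)
    (fun k x => ?_) hgk ?_
  · exact hfm.mul ((mn_meas hGm (hε0 k)).comp (hT.mΦ.prodMk hlm))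
  · rw [norm_mul]
    exact mul_le_one₀ (hfb x) (norm_nonneg _) (mn_le hGb (hε0 k) _ _)
  · filter_upwards [hN N hNm hN0] with x hx'
    rcases hx' with h | h
    · simp only [h, zero_mul]
      exact tendsto_const_nhds
    · have h2 : Tendsto (fun k => mn G (ε k) (Φ x) (inner ℝ l (x : E n))) atTop
          (𝓝 (G (Φ x) (inner ℝ l (x : E n)))) := by
        by_contra h3
        exact h h3
      exact h2.const_mul (f x)

end Pool.Agent.HSL
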